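import Pool.Agent.N783.PQ.Lat

/-!
# Hermite reduction of positive definite forms

Project PQ (helper783), part HRB (helper507).
-/

set_option autoImplicit false
set_option linter.all false

open Matrix
open scoped Classical

namespace Pool.Agent.N507.PQ

section

variable {n : ℕ}

/-- the quadratic form -/
def q (H : Matrix (Fin n) (Fin n) ℝ) (x : Fin n → ℝ) : ℝ := ∑ i, ∑ j, x i * H i j * x j

theorem q_eq (H : Matrix (Fin n) (Fin n) ℝ) (x : Fin n → ℝ) : q H x = x ⬝ᵥ (H *ᵥ x) := by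
  unfold q
  simp only [dotProduct, mulVec, Finset.mul_sum, mul_assoc]

/-- the matrix over the reals -/
abbrev cR (U : Matrix (Fin n) (Fin n) ℤ) : Matrix (Fin n) (Fin n) ℝ := U.map (Int.cast : ℤ → ℝ)

theorem diag_eq (H : Matrix (Fin n) (Fin n) ℝ) (U : Matrix (Fin n) (Fin n) ℤ) (i : Fin n) :
    ((cR U)ᵀ * H * cR U) i i = q H (fun j => (U j i : ℝ)) := by
  rw [Matrix.mul_apply]
  simp only [Matrix.mul_apply, Matrix.transpose_apply, Matrix.map_apply, Finset.sum_mul]
  rw [Finset.sum_comm]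
  rfl

theorem pd_iff (H : Matrix (Fin n) (Fin n) ℝ) :
    H.PosDef ↔ H.IsSymm ∧ ∀ x : Fin n → ℝ, x ≠ 0 → 0 < q H x := by
  rw [Matrix.posDef_iff_dotProduct_mulVec]
  have e1 : H.IsHermitian ↔ H.IsSymm := by
    rw [Matrix.IsHermitian, Matrix.conjTranspose_eq_transpose_of_trivial]
    rfl
  rw [e1]
  simp only [star_trivial, q_eq]

theorem fin_le {H : Matrix (Fin n) (Fin n) ℝ} (hH : H.PosDef) (R : ℝ) :
    {x : Fin n → ℤ | q H (fun i => (x i : ℝ)) ≤ R}.Finite := by
  obtain ⟨hs, hp⟩ := (pd_iff H).1 hH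
  have hdet : IsUnit H.det := (Matrix.isUnit_iff_isUnit_det _).1 hH.isUnit
  have key : ∀ i : Fin n, ∃ M : ℤ, ∀ x : Fin n → ℤ, q H (fun i => (x i : ℝ)) ≤ R →
      -M ≤ x i ∧ x i ≤ M := by
    intro i
    set u : Fin n → ℝ := H⁻¹ *ᵥ Pi.single i 1 with hu
    have hHu : H *ᵥ u = Pi.single i 1 := by
      rw [hu, mulVec_mulVec, Matrix.mul_nonsing_inv _ hdet, one_mulVec]
    have hu0 : u ≠ 0 := by
      intro h
      rw [h, mulVec_zero] at hHu
      have := congrFun hHu i
      rw [Pi.single_eq_same] at this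
      exact zero_ne_one this
    have hui : q H u = u i := by
      rw [q_eq, hHu, dotProduct_single, mul_one]
    have hup : 0 < u i := by rw [← hui]; exact hp u hu0
    refine ⟨⌈u i * R⌉ + 1, fun x hx => ?_⟩
    set y : Fin n → ℝ := fun i => (x i : ℝ) with hy
    have h1 : 0 ≤ q H (y - (y i / u i) • u) := by
      by_cases h0 : y - (y i / u i) • u = 0
      · rw [h0]; simp [q]
      · exact (hp _ h0).le
    have h2 : u ⬝ᵥ (H *ᵥ y) = y i := by
      rw [dotProduct_mulVec, ← mulVec_transpose, hs.eq, hHu, single_dotProduct, one_mul]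
    have h3 : q H (y - (y i / u i) • u) = q H y - y i ^ 2 / u i := by
      rw [q_eq, q_eq, mulVec_sub, mulVec_smul, hHu, dotProduct_sub, sub_dotProduct,
        smul_dotProduct, h2, dotProduct_smul, sub_dotProduct, smul_dotProduct, dotProduct_single,
        dotProduct_single]
      simp only [smul_eq_mul, mul_one]
      field_simp
      ring
    rw [h3] at h1
    have h4 : y i ^ 2 ≤ u i * R := by
      have h5 : y i ^ 2 / u i ≤ R := by linarith
      rw [div_le_iff₀ hup] at h5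
      linarith
    have h5 : (x i : ℝ) ^ 2 ≤ (⌈u i * R⌉ : ℝ) := h4.trans (Int.le_ceil _)
    have h6 : (x i) ^ 2 ≤ ⌈u i * R⌉ := by exact_mod_cast h5
    constructor <;> nlinarith
  choose M hM using key
  refine (Set.finite_Icc (fun i => -M i) M).subset fun x hx => ?_
  exact ⟨fun i => (hM i x hx).1, fun i => (hM i x hx).2⟩

end

section step

variable {n : ℕ}

/-- the matrix `1 k; 0 A` -/
def blk {R : Type} [Zero R] [One R] (k : Fin n → R) (A : Matrix (Fin n) (Fin n) R) :
    Matrix (Fin (n + 1)) (Fin (n + 1)) R :=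
  Matrix.of (Fin.cons (Fin.cons 1 k) (fun i => Fin.cons 0 (A i)))

theorem blk_zz {R : Type} [Zero R] [One R] (k : Fin n → R) (A : Matrix (Fin n) (Fin n) R) :
    blk k A 0 0 = 1 := rfl

theorem blk_zs {R : Type} [Zero R] [One R] (k : Fin n → R) (A : Matrix (Fin n) (Fin n) R)
    (j : Fin n) : blk k A 0 j.succ = k j := rfl

theorem blk_sz {R : Type} [Zero R] [One R] (k : Fin n → R) (A : Matrix (Fin n) (Fin n) R)
    (j : Fin n) : blk k A j.succ 0 = 0 := rfl

theorem blk_ss {R : Type} [Zero R] [One R] (k : Fin n → R) (A : Matrix (Fin n) (Fin n) R)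
    (i j : Fin n) : blk k A i.succ j.succ = A i j := rfl

theorem det_blk {R : Type} [CommRing R] (k : Fin n → R) (A : Matrix (Fin n) (Fin n) R) :
    (blk k A).det = A.det := by
  rw [Matrix.det_succ_column_zero, Fin.sum_univ_succ]
  have e1 : ∀ i : Fin n, (-1 : R) ^ ((i.succ : Fin (n + 1)) : ℕ) * blk k A i.succ 0 *
      ((blk k A).submatrix i.succ.succAbove Fin.succ).det = 0 := by
    intro i
    rw [blk_sz, mul_zero, zero_mul]
  rw [Finset.sum_eq_zero fun i _ => e1 i, add_zero, blk_zz, Fin.val_zero, pow_zero, one_mul,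
    one_mul]
  congr 1

/-- the Schur complement -/
noncomputable def sch (H : Matrix (Fin (n + 1)) (Fin (n + 1)) ℝ) : Matrix (Fin n) (Fin n) ℝ :=
  Matrix.of fun i j => H i.succ j.succ - H i.succ 0 * H 0 j.succ / H 0 0

theorem det_sch {H : Matrix (Fin (n + 1)) (Fin (n + 1)) ℝ} (h0 : H 0 0 ≠ 0) :
    H.det = H 0 0 * (sch H).det := by
  have e1 : H.det = (H * blk (fun j => -(H 0 j.succ / H 0 0)) 1).det := by
    rw [Matrix.det_mul, det_blk, Matrix.det_one, mul_one]
  have e2 : ∀ i, (H * blk (fun j => -(H 0 j.succ / H 0 0)) 1) i 0 = H i 0 := by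
    intro i
    rw [Matrix.mul_apply, Fin.sum_univ_succ, blk_zz, mul_one]
    simp [blk_sz]
  have e3 : ∀ i (j : Fin n), (H * blk (fun j => -(H 0 j.succ / H 0 0)) 1) i j.succ =
      H i j.succ - H i 0 * H 0 j.succ / H 0 0 := by
    intro i j
    rw [Matrix.mul_apply, Fin.sum_univ_succ, blk_zs]
    have : ∀ l : Fin n, H i l.succ * blk (fun j => -(H 0 j.succ / H 0 0)) 1 l.succ j.succ =
        if l = j then H i l.succ else 0 := by
      intro l
      rw [blk_ss, Matrix.one_apply, mul_ite, mul_one, mul_zero]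
    rw [Finset.sum_congr rfl fun l _ => this l, Finset.sum_ite_eq' Finset.univ j,
      if_pos (Finset.mem_univ j)]
    ring
  rw [e1, Matrix.det_succ_row_zero, Fin.sum_univ_succ]
  have e4 : ∀ j : Fin n, (-1 : ℝ) ^ ((j.succ : Fin (n + 1)) : ℕ) *
      (H * blk (fun j => -(H 0 j.succ / H 0 0)) 1) 0 j.succ *
      ((H * blk (fun j => -(H 0 j.succ / H 0 0)) 1).submatrix Fin.succ j.succ.succAbove).det =
        0 := by
    intro j
    rw [e3]
    have : H 0 j.succ - H 0 0 * H 0 j.succ / H 0 0 = 0 := by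
      field_simp
      ring
    rw [this, mul_zero, zero_mul]
  rw [Finset.sum_eq_zero fun j _ => e4 j, add_zero, e2, Fin.val_zero, pow_zero, one_mul]
  congr 2
  ext i j
  show (H * blk (fun j => -(H 0 j.succ / H 0 0)) 1) i.succ j.succ = _
  rw [e3]
  rfl

theorem q_sch {H : Matrix (Fin (n + 1)) (Fin (n + 1)) ℝ} (hs : H.IsSymm) (h0 : H 0 0 ≠ 0)
    (x : Fin (n + 1) → ℝ) : q H x = H 0 0 * (x 0 + (∑ j : Fin n, H 0 j.succ * x j.succ) / H 0 0) ^ 2 +
      q (sch H) (fun j => x j.succ) := by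
  have hs' : ∀ i : Fin n, H i.succ 0 = H 0 i.succ := fun i => hs.apply 0 i.succ
  set s := ∑ j : Fin n, H 0 j.succ * x j.succ with hsd
  have e1 : q H x = x 0 * H 0 0 * x 0 + x 0 * s + (s * x 0 +
      ∑ i : Fin n, ∑ j : Fin n, x i.succ * H i.succ j.succ * x j.succ) := by
    unfold q
    rw [Fin.sum_univ_succ, Fin.sum_univ_succ, hsd, Finset.mul_sum, Finset.sum_mul,
      ← Finset.sum_add_distrib]
    congr 1
    · congr 1
      exact Finset.sum_congr rfl fun j _ => by ring
    · refine Finset.sum_congr rfl fun i _ => ?_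
      rw [Fin.sum_univ_succ, hs' i]
      ring
  have e2 : q (sch H) (fun j => x j.succ) =
      (∑ i : Fin n, ∑ j : Fin n, x i.succ * H i.succ j.succ * x j.succ) - s * s / H 0 0 := by
    unfold q
    have e3 : s * s / H 0 0 = ∑ i : Fin n, ∑ j : Fin n,
        x i.succ * (H i.succ 0 * H 0 j.succ / H 0 0) * x j.succ := by
      rw [hsd, Finset.sum_mul_sum, Finset.sum_div]
      refine Finset.sum_congr rfl fun i _ => ?_
      rw [Finset.sum_div]
      refine Finset.sum_congr rfl fun j _ => ?_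
      rw [hs' i]
      ring
    rw [e3, ← Finset.sum_sub_distrib]
    refine Finset.sum_congr rfl fun i _ => ?_
    rw [← Finset.sum_sub_distrib]
    refine Finset.sum_congr rfl fun j _ => ?_
    show x i.succ * (H i.succ j.succ - H i.succ 0 * H 0 j.succ / H 0 0) * x j.succ = _
    ring
  rw [e1, e2]
  field_simp
  ring

theorem pd_sch {H : Matrix (Fin (n + 1)) (Fin (n + 1)) ℝ} (hH : H.PosDef) : (sch H).PosDef := by
  have h0 : 0 < H 0 0 := hH.diag_pos
  obtain ⟨hs, hp⟩ := (pd_iff H).1 hH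
  rw [pd_iff]
  refine ⟨?_, ?_⟩
  · ext i j
    show H j.succ i.succ - H j.succ 0 * H 0 i.succ / H 0 0 =
      H i.succ j.succ - H i.succ 0 * H 0 j.succ / H 0 0
    rw [hs.apply i.succ j.succ, ← hs.apply 0 i.succ, ← hs.apply 0 j.succ]
    ring
  · intro x hx
    have h1 := hp (Fin.cons (-((∑ j : Fin n, H 0 j.succ * x j) / H 0 0)) x) (by
      intro h
      apply hx
      funext j
      have := congrFun h j.succ
      rwa [Fin.cons_succ] at this)
    rw [q_sch hs h0.ne'] at h1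
    simp only [Fin.cons_zero, Fin.cons_succ] at h1
    rw [neg_add_cancel] at h1
    simpa using h1

theorem q_mul (H : Matrix (Fin n) (Fin n) ℝ) (U V : Matrix (Fin n) (Fin n) ℤ) (i : Fin n) :
    q ((cR U)ᵀ * H * cR U) (fun j => (V j i : ℝ)) = q H (fun j => ((U * V) j i : ℝ)) := by
  rw [← diag_eq, ← diag_eq]
  have e : cR (U * V) = cR U * cR V := by
    have := Matrix.map_mul (L := U) (M := V) (f := Int.castRingHom ℝ)
    exact this
  rw [e, Matrix.transpose_mul]
  simp only [Matrix.mul_assoc]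

theorem det_cR (U : Matrix (Fin n) (Fin n) ℤ) : (cR U).det = (U.det : ℝ) := by
  have := (Int.castRingHom ℝ).map_det U
  exact this.symm

theorem det_sq {U : Matrix (Fin n) (Fin n) ℤ} (hU : IsUnit U.det) : (cR U).det ^ 2 = 1 := by
  rw [det_cR]
  rcases Int.isUnit_iff.1 hU with h | h <;> rw [h] <;> norm_num

theorem pd_conj {H : Matrix (Fin n) (Fin n) ℝ} (hH : H.PosDef) {U : Matrix (Fin n) (Fin n) ℤ}
    (hU : IsUnit U.det) : ((cR U)ᵀ * H * cR U).PosDef := by
  have h1 := hH.conjTranspose_mul_mul_same (B := cR U) (by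
    rw [Matrix.mulVec_injective_iff_isUnit, Matrix.isUnit_iff_isUnit_det]
    refine isUnit_iff_ne_zero.2 fun h => ?_
    have := det_sq hU
    rw [h] at this
    norm_num at this)
  rwa [Matrix.conjTranspose_eq_transpose_of_trivial] at h1

theorem det_conj {H : Matrix (Fin n) (Fin n) ℝ} {U : Matrix (Fin n) (Fin n) ℤ}
    (hU : IsUnit U.det) : ((cR U)ᵀ * H * cR U).det = H.det := by
  rw [Matrix.det_mul, Matrix.det_mul, Matrix.det_transpose]
  linear_combination H.det * det_sq hU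

/-- A basis with a vector which is shortest among the elements of all bases. -/
theorem exists_min {H : Matrix (Fin (n + 1)) (Fin (n + 1)) ℝ} (hH : H.PosDef) :
    ∃ U : Matrix (Fin (n + 1)) (Fin (n + 1)) ℤ, IsUnit U.det ∧
      ∀ V : Matrix (Fin (n + 1)) (Fin (n + 1)) ℤ, IsUnit V.det → ∀ i,
        q H (fun j => (U j 0 : ℝ)) ≤ q H (fun j => (V j i : ℝ)) := by
  set T : Set (Fin (n + 1) → ℤ) := {x | q H (fun i => (x i : ℝ)) ≤
    q H (fun j => ((1 : Matrix (Fin (n + 1)) (Fin (n + 1)) ℤ) j 0 : ℝ)) ∧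
    ∃ U : Matrix (Fin (n + 1)) (Fin (n + 1)) ℤ, IsUnit U.det ∧ ∀ j, U j 0 = x j} with hT
  have hTf : T.Finite := (fin_le hH _).subset fun x hx => hx.1
  have hTn : T.Nonempty := ⟨fun j => (1 : Matrix (Fin (n + 1)) (Fin (n + 1)) ℤ) j 0, le_rfl, 1,
    by rw [Matrix.det_one]; exact isUnit_one, fun j => rfl⟩
  obtain ⟨x, ⟨hx1, U, hU, hUx⟩, hmin⟩ := hTf.exists_minimalFor
    (fun x : Fin (n + 1) → ℤ => q H (fun i => (x i : ℝ))) T hTn
  have hx' : q H (fun j => (U j 0 : ℝ)) = q H (fun i => (x i : ℝ)) := by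
    congr 1
    funext j
    rw [hUx j]
  refine ⟨U, hU, fun V hV i => ?_⟩
  rw [hx']
  by_contra hcon
  rw [not_le] at hcon
  have h1 : (fun j => V j i) ∈ T := by
    refine ⟨hcon.le.trans hx1, V.submatrix id (Equiv.swap 0 i), ?_, fun j => ?_⟩
    · rw [Matrix.det_permute']
      exact (Units.isUnit _).map (Int.castRingHom ℤ) |>.mul hV
    · rw [Matrix.submatrix_apply, Equiv.swap_apply_left]
      rfl
  exact absurd (hmin h1 hcon.le) (not_le.2 hcon)

end step

/-- Hermite reduction, without the order. -/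
theorem herm : ∀ n : ℕ, ∃ C : ℝ, 0 < C ∧ ∀ H : Matrix (Fin n) (Fin n) ℝ, H.PosDef →
    ∃ U : Matrix (Fin n) (Fin n) ℤ, IsUnit U.det ∧
      ∏ i, ((cR U)ᵀ * H * cR U) i i ≤ C * H.det := by
  intro n
  induction n with
  | zero =>
    refine ⟨1, one_pos, fun H hH => ⟨1, by rw [Matrix.det_one]; exact isUnit_one, ?_⟩⟩
    rw [Finset.univ_eq_empty, Finset.prod_empty, Matrix.det_isEmpty, mul_one]
  | succ n ih =>
    obtain ⟨C, hC, ih⟩ := ih
    refine ⟨(4 / 3) ^ n * C, by positivity, fun H hH => ?_⟩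
    obtain ⟨U, hU, hmin⟩ := exists_min hH
    set H₁ := (cR U)ᵀ * H * cR U with hH₁
    have hpd : H₁.PosDef := pd_conj hH hU
    have hm : 0 < H₁ 0 0 := hpd.diag_pos
    obtain ⟨hs, hp⟩ := (pd_iff H₁).1 hpd
    have hmin' : ∀ V : Matrix (Fin (n + 1)) (Fin (n + 1)) ℤ, IsUnit V.det → ∀ i,
        H₁ 0 0 ≤ q H₁ (fun j => (V j i : ℝ)) := by
      intro V hV i
      rw [hH₁, diag_eq, q_mul]
      exact hmin _ (by rw [Matrix.det_mul]; exact hU.mul hV) i
    obtain ⟨U', hU', hprod⟩ := ih (sch H₁) (pd_sch hpd)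
    set σ : Fin n → ℝ := fun i => (∑ j : Fin n, H₁ 0 j.succ * (U' j i : ℝ)) / H₁ 0 0 with hσ
    set V := blk (fun i => -round (σ i)) U' with hV
    have hVu : IsUnit V.det := by rw [hV, det_blk]; exact hU'
    refine ⟨U * V, by rw [Matrix.det_mul]; exact hU.mul hVu, ?_⟩
    have e1 : ∀ i, ((cR (U * V))ᵀ * H * cR (U * V)) i i = q H₁ (fun j => (V j i : ℝ)) := by
      intro i
      rw [diag_eq, hH₁, q_mul]
    rw [Finset.prod_congr rfl fun i _ => e1 i, Fin.prod_univ_succ]
    have e2 : q H₁ (fun j => (V j 0 : ℝ)) = H₁ 0 0 := by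
      rw [q_sch hs hm.ne']
      have e3 : ∀ j : Fin n, (V j.succ 0 : ℝ) = 0 := by
        intro j
        rw [hV, blk_sz, Int.cast_zero]
      have e4 : (V 0 0 : ℝ) = 1 := by rw [hV, blk_zz, Int.cast_one]
      simp only [e3, e4, mul_zero, Finset.sum_const_zero, zero_div, add_zero, one_pow, mul_one]
      simp [q]
    have e3 : ∀ i : Fin n, q H₁ (fun j => (V j i.succ : ℝ)) ≤
        4 / 3 * ((cR U')ᵀ * sch H₁ * cR U') i i := by
      intro i
      have h1 := hmin' V hVu i.succ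
      have h2 : q H₁ (fun j => (V j i.succ : ℝ)) = H₁ 0 0 * (-(round (σ i) : ℝ) + σ i) ^ 2 +
          ((cR U')ᵀ * sch H₁ * cR U') i i := by
        rw [q_sch hs hm.ne', diag_eq]
        have e4 : ∀ j : Fin n, (V j.succ i.succ : ℝ) = U' j i := by
          intro j
          rw [hV, blk_ss]
        have e5 : (V 0 i.succ : ℝ) = -(round (σ i) : ℝ) := by
          rw [hV, blk_zs, Int.cast_neg]
        simp only [e4, e5]
        rfl
      have h3 : (-(round (σ i) : ℝ) + σ i) ^ 2 ≤ 1 / 4 := by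
        have h4 := abs_sub_round (σ i)
        have h5 : (-(round (σ i) : ℝ) + σ i) ^ 2 = |σ i - round (σ i)| ^ 2 := by
          rw [sq_abs]; ring
        rw [h5]
        have h6 := abs_nonneg (σ i - round (σ i))
        nlinarith
      have h4 := mul_le_mul_of_nonneg_left h3 hm.le
      linarith
    rw [e2]
    have h0 : ∀ i ∈ (Finset.univ : Finset (Fin n)), 0 ≤ q H₁ (fun j => (V j i.succ : ℝ)) :=
      fun i _ => hm.le.trans (hmin' V hVu i.succ)
    have h1 : ∏ i : Fin n, q H₁ (fun j => (V j i.succ : ℝ)) ≤ (4 / 3) ^ n * (C * (sch H₁).det) := by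
      calc ∏ i : Fin n, q H₁ (fun j => (V j i.succ : ℝ)) ≤
            ∏ i : Fin n, 4 / 3 * ((cR U')ᵀ * sch H₁ * cR U') i i :=
            Finset.prod_le_prod h0 fun i _ => e3 i
        _ = (4 / 3) ^ n * ∏ i : Fin n, ((cR U')ᵀ * sch H₁ * cR U') i i := by
            rw [Finset.prod_mul_distrib, Finset.prod_const, Finset.card_univ, Fintype.card_fin]
        _ ≤ _ := mul_le_mul_of_nonneg_left hprod (by positivity)
    have h2 : H.det = H₁ 0 0 * (sch H₁).det := by
      rw [← det_sch hm.ne', hH₁, det_conj hU]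
    rw [h2]
    calc _ ≤ H₁ 0 0 * ((4 / 3) ^ n * (C * (sch H₁).det)) := mul_le_mul_of_nonneg_left h1 hm.le
      _ = _ := by ring

/-- Hermite reduction of a positive definite form. -/
theorem hrb : Pool.Agent.N783.PQ.S_HRB := by
  intro n
  obtain ⟨C, hC, h⟩ := herm n
  refine ⟨C, hC, fun H hH => ?_⟩
  obtain ⟨U, hU, hprod⟩ := h H hH
  set d : Fin n → ℝ := fun i => ((cR U)ᵀ * H * cR U) i i with hd
  set σ := Tuple.sort d with hσ
  have e1 : ∀ i, ((cR (U.submatrix id σ))ᵀ * H * cR (U.submatrix id σ)) i i = d (σ i) := by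
    intro i
    rw [hd]
    simp only
    rw [diag_eq, diag_eq]
    rfl
  refine ⟨U.submatrix id σ, ?_, ?_, ?_⟩
  · rw [Matrix.det_permute']
    exact (Units.isUnit _).map (Int.castRingHom ℤ) |>.mul hU
  · have h1 := Tuple.monotone_sort d
    intro i j hij
    show ((cR (U.submatrix id σ))ᵀ * H * cR (U.submatrix id σ)) i i ≤
      ((cR (U.submatrix id σ))ᵀ * H * cR (U.submatrix id σ)) j j
    rw [e1, e1]
    exact h1 hij
  · have e2 : ∏ i, ((cR (U.submatrix id σ))ᵀ * H * cR (U.submatrix id σ)) i i = ∏ i, d i := by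
      rw [Finset.prod_congr rfl fun i _ => e1 i]
      exact Equiv.prod_comp σ d
    show ∏ i, ((cR (U.submatrix id σ))ᵀ * H * cR (U.submatrix id σ)) i i ≤ _
    rw [e2]
    exact hprod

end Pool.Agent.N507.PQ
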