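import Mathlib

/-!
# The determinant of the form given by the top coefficient

Project PQ (helper783), part of HQ (helper507).
-/

set_option autoImplicit false
set_option linter.all false

open Matrix Polynomial

namespace Pool.Agent.N507.PQ

section field

variable {k : Type} [Field k]

/-- The determinant of the form `top(γ y z)` modulo `r`. -/
theorem det_top {r : k[X]} (hr : r.Monic) {n : ℕ} (hn : r.natDegree = n + 1) (γ : k[X]) :
    ∃ ε : k, (ε = 1 ∨ ε = -1) ∧
      (Matrix.of fun i j : Fin (n + 1) => ((γ * X ^ ((i : ℕ) + j)) %ₘ r).coeff n).det =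
        ε * Algebra.norm k (AdjoinRoot.mk r γ) := by
  set b : Module.Basis (Fin (n + 1)) k (AdjoinRoot r) :=
    (AdjoinRoot.powerBasisAux' hr).reindex (finCongr hn) with hb
  have hbr : ∀ (p : k[X]) (i : Fin (n + 1)), b.repr (AdjoinRoot.mk r p) i = (p %ₘ r).coeff i := by
    intro p i
    rw [hb, Module.Basis.repr_reindex_apply, AdjoinRoot.powerBasisAux'_repr_apply_to_fun,
      AdjoinRoot.modByMonicHom_mk]
    rfl
  have hbi : ∀ i : Fin (n + 1), b i = AdjoinRoot.mk r (X ^ (i : ℕ)) := by
    intro i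
    apply b.repr.injective
    ext j
    rw [b.repr_self, hbr, (modByMonic_eq_self_iff hr).2, coeff_X_pow, Finsupp.single_apply]
    · simp [Fin.ext_iff, eq_comm]
    · rw [degree_X_pow, degree_eq_natDegree hr.ne_zero, hn]
      exact_mod_cast i.2
  set Λ := Algebra.leftMulMatrix b (AdjoinRoot.mk r γ) with hΛ
  set Y₁ : Matrix (Fin (n + 1)) (Fin (n + 1)) k :=
    Matrix.of fun i j : Fin (n + 1) => ((X ^ ((i : ℕ) + j)) %ₘ r).coeff n with hY₁
  have hmul : (Matrix.of fun i j : Fin (n + 1) => ((γ * X ^ ((i : ℕ) + j)) %ₘ r).coeff n) =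
      Y₁ * Λ := by
    ext i j
    have e1 : ∀ p : k[X], (p %ₘ r).coeff n = b.coord (Fin.last n) (AdjoinRoot.mk r p) := by
      intro p
      rw [Module.Basis.coord_apply, hbr, Fin.val_last]
    rw [Matrix.of_apply, e1, Matrix.mul_apply]
    have e2 : AdjoinRoot.mk r (γ * X ^ ((i : ℕ) + j)) =
        ∑ l, Λ l j • AdjoinRoot.mk r (X ^ ((i : ℕ) + (l : ℕ))) := by
      have e3 : AdjoinRoot.mk r γ * b j = ∑ l, Λ l j • b l := by
        rw [← b.sum_repr (AdjoinRoot.mk r γ * b j)]
        refine Finset.sum_congr rfl fun l _ => ?_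
        rw [hΛ, Algebra.leftMulMatrix_eq_repr_mul]
      calc AdjoinRoot.mk r (γ * X ^ ((i : ℕ) + j)) =
            AdjoinRoot.mk r (X ^ (i : ℕ)) * (AdjoinRoot.mk r γ * b j) := by
            rw [hbi, ← map_mul, ← map_mul, pow_add]
            congr 1
            ring
        _ = _ := by
            rw [e3, Finset.mul_sum]
            refine Finset.sum_congr rfl fun l _ => ?_
            rw [mul_smul_comm, hbi, ← map_mul, pow_add]
    rw [e2, map_sum]
    refine Finset.sum_congr rfl fun l _ => ?_
    rw [map_smul, smul_eq_mul, ← e1, hY₁, Matrix.of_apply, mul_comm]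
  have hdet : (Y₁.submatrix id (Fin.revPerm : Equiv.Perm (Fin (n + 1)))).det = 1 := by
    have hent : ∀ i j : Fin (n + 1), i ≤ j →
        Y₁.submatrix id (Fin.revPerm : Equiv.Perm (Fin (n + 1))) i j = if i = j then 1 else 0 := by
      intro i j hij
      have hij' : (i : ℕ) ≤ j := hij
      rw [Matrix.submatrix_apply, hY₁, Matrix.of_apply, id, Fin.revPerm_apply, Fin.val_rev,
        (modByMonic_eq_self_iff hr).2, coeff_X_pow]
      · have := j.2
        by_cases h : i = j
        · rw [if_pos h, if_pos]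
          rw [h]; omega
        · rw [if_neg h, if_neg]
          have : (i : ℕ) ≠ j := fun h' => h (Fin.ext h')
          omega
      · rw [degree_X_pow, degree_eq_natDegree hr.ne_zero, hn]
        have := j.2
        exact_mod_cast (by omega : (i : ℕ) + (n + 1 - (j + 1)) < n + 1)
    rw [Matrix.det_of_lowerTriangular]
    · refine Finset.prod_eq_one fun i _ => ?_
      rw [hent i i le_rfl, if_pos rfl]
    · intro i j hij
      have hij' : i < j := hij
      rw [hent i j hij'.le, if_neg hij'.ne]
  rw [hmul, Matrix.det_mul, hΛ, ← Algebra.norm_eq_matrix_det]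
  rw [Matrix.det_permute'] at hdet
  rcases Int.units_eq_one_or (Equiv.Perm.sign (Fin.revPerm : Equiv.Perm (Fin (n + 1)))) with h | h
  · rw [h] at hdet
    refine ⟨1, Or.inl rfl, ?_⟩
    simp only [Units.val_one, Int.cast_one, one_mul] at hdet
    rw [hdet]
  · rw [h] at hdet
    refine ⟨-1, Or.inr rfl, ?_⟩
    simp only [Units.val_neg, Units.val_one, Int.cast_neg, Int.cast_one] at hdet
    have : Y₁.det = -1 := by linear_combination -hdet
    rw [this]

/-- multiplication by `X` -/
theorem X_mul_mod {r : k[X]} (hr : r.Monic) (p : k[X]) : (X * p) %ₘ (X * r) = X * (p %ₘ r) := by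
  have hXr : (X * r).Monic := monic_X.mul hr
  refine (div_modByMonic_unique (p /ₘ r) (X * (p %ₘ r)) hXr ⟨?_, ?_⟩).2
  · have := modByMonic_add_div p r
    linear_combination X * this
  · by_cases h0 : p %ₘ r = 0
    · rw [h0, mul_zero, degree_zero, bot_lt_iff_ne_bot]
      exact degree_eq_bot.not.2 hXr.ne_zero
    · rw [degree_mul, degree_mul]
      have h1 := degree_modByMonic_lt p hr
      exact WithBot.add_lt_add_left (by simp) h1

theorem X_mul_mod_coeff {r : k[X]} (hr : r.Monic) (p : k[X]) (n : ℕ) :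
    ((X * p) %ₘ (X * r)).coeff (n + 1) = (p %ₘ r).coeff n := by
  rw [X_mul_mod hr, coeff_X_mul]

/-- the first entry -/
theorem corner {r : k[X]} (hr : r.Monic) {n : ℕ} (hn : r.natDegree = n) (c : k) :
    ((C c * r * r * r) %ₘ (X * r)).coeff n = c * r.coeff 0 ^ 2 := by
  have hXr : (X * r).Monic := monic_X.mul hr
  obtain ⟨s, hs⟩ : X ∣ r ^ 2 - C (r.coeff 0 ^ 2) := by
    rw [X_dvd_iff, coeff_sub, coeff_C_zero, coeff_zero_eq_eval_zero, coeff_zero_eq_eval_zero,
      eval_pow, sub_self]
  have h1 : (C c * r * r * r) %ₘ (X * r) = C (c * r.coeff 0 ^ 2) * r := by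
    refine (div_modByMonic_unique (C c * s) _ hXr ⟨?_, ?_⟩).2
    · rw [C_mul]
      linear_combination (-C c * r) * hs
    · rw [← smul_eq_C_mul]
      refine lt_of_le_of_lt (degree_smul_le _ _) ?_
      rw [degree_mul, degree_X, degree_eq_natDegree hr.ne_zero]
      exact_mod_cast (by omega : r.natDegree < 1 + r.natDegree)
  rw [h1, coeff_C_mul, ← hn, hr.coeff_natDegree, mul_one]

end field

end Pool.Agent.N507.PQ
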