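import Pool.Agent.N507.PQ.Gram
import Pool.Agent.N507.PQ.Lin
import Pool.Agent.N340.PQ.Exq
import Pool.Agent.N691.PQ.Par
import Pool.Agent.N434.PJ.HP

/-!
# The invariant at `q` in `S`

Project PQ (helper783), part HQ (helper507).
-/

set_option autoImplicit false
set_option linter.all false

open Polynomial IsDedekindDomain Matrix NumberField WithZero
open scoped Classical

namespace Pool.Agent.N507.PQ

open Pool.Agent.N352.PJ (Mt)
open Pool.Agent.N783.PQ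
open Pool.Agent.N874.PP (Ev Sq1)
open Pool.Agent.N340.PQ (ev ev_L ev_f ev_X ev_C ev_CQ ex_poly theta_ex ex_psi eq_ker mem_or hbar
  psi_surj card_adj map_rd_eq_zero map_eq_of_cg)

/-! ### The integral matrix -/

/-- the top coefficient -/
noncomputable def tz (g : ℕ) (f p : ℤ[X]) : ℤ := (p %ₘ f).coeff (2 * g)

theorem tz_add {g : ℕ} {f : ℤ[X]} (p p' : ℤ[X]) : tz g f (p + p') = tz g f p + tz g f p' := by
  rw [tz, add_modByMonic, coeff_add]; rfl

theorem tz_C_mul {g : ℕ} {f : ℤ[X]} (a : ℤ) (p : ℤ[X]) : tz g f (C a * p) = a * tz g f p := by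
  rw [tz, ← smul_eq_C_mul, smul_modByMonic, coeff_smul, smul_eq_mul]; rfl

theorem tz_mul_self {g : ℕ} {f : ℤ[X]} (hf : f.Monic) (p : ℤ[X]) : tz g f (f * p) = 0 := by
  rw [tz, (modByMonic_eq_zero_iff_dvd hf).2 (Dvd.intro _ rfl), coeff_zero]

theorem tz_mod {g : ℕ} {f : ℤ[X]} (hf : f.Monic) (q : ℕ) (p : ℤ[X]) :
    ((tz g f p : ℤ) : ZMod q) = ((rd q p) %ₘ (rd q f)).coeff (2 * g) := by
  rw [rd, rd, ← map_modByMonic _ hf, coeff_map]
  rfl

/-- the basis as polynomials -/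
noncomputable def ee (g : ℕ) (r : ℤ[X]) : Fin (2 * g + 1) → ℤ[X] :=
  Fin.cons r (fun j : Fin (2 * g) => X ^ ((j : ℕ) + 1))

theorem bs_ee {L : Type} [Field L] [NumberField L] {g : ℕ} {θ c : L} {r : ℤ[X]}
    (i : Fin (2 * g + 1)) : bs g θ c r i = c * aeval θ (ee g r i) := by
  refine Fin.cases ?_ (fun i => ?_) i
  · rw [bs, ee, Fin.cons_zero, Fin.cons_zero]
  · rw [bs, ee, Fin.cons_succ, Fin.cons_succ, map_pow, aeval_X]

theorem det_top' {k : Type} [Field k] {r : k[X]} (hr : r.Monic) {N : ℕ} (hN : 1 ≤ N)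
    (hn : r.natDegree = N) (γ : k[X]) :
    ∃ ε : k, (ε = 1 ∨ ε = -1) ∧
      (Matrix.of fun i j : Fin N => ((γ * X ^ ((i : ℕ) + j)) %ₘ r).coeff (N - 1)).det =
        ε * Algebra.norm k (AdjoinRoot.mk r γ) := by
  obtain ⟨n, rfl⟩ : ∃ n, N = n + 1 := ⟨N - 1, by omega⟩
  exact det_top hr hn γ

theorem poly_part {q : ℕ} [hq : Fact q.Prime] (hq8 : q % 8 = 1) {g : ℕ} (hg : 1 ≤ g)
    {f r P γ : ℤ[X]} {c₀ : ℤ} (hf : f.Monic) (hfb : rd q f = X * rd q r) (hrm : r.Monic)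
    (hrd : (rd q r).natDegree = 2 * g) (hirr : Irreducible (rd q r)) (hrX : ¬ rd q r ∣ X)
    (hP : rd q P = C (c₀ : ZMod q) * rd q r) (hc : ¬ (q : ℤ) ∣ c₀)
    (hXP : X * P = C c₀ * f + C (q : ℤ) * γ) (hγ : ¬ rd q r ∣ rd q γ) :
    HasInv ((Matrix.of fun i j : Fin (2 * g + 1) => tz g f (P * (ee g r i * ee g r j))).map
      (Int.cast : ℤ → ℚ_[q])) (if IsSquare (AdjoinRoot.mk (rd q r) (rd q γ)) then 1 else -1) := by
  have i2 : Fact (Irreducible (rd q r)) := ⟨hirr⟩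
  have hrbm : (rd q r).Monic := hrm.map _
  have hXr : (X * rd q r).Monic := monic_X.mul hrbm
  have hkey : ∀ p : ℤ[X], tz g f (X * P * p) = q * tz g f (γ * p) := by
    intro p
    have e : X * P * p = f * (C c₀ * p) + C (q : ℤ) * (γ * p) := by rw [hXP]; ring
    rw [e, tz_add, tz_mul_self hf, tz_C_mul, zero_add]
  set y : Matrix (Fin (2 * g)) (Fin (2 * g)) ℤ :=
    Matrix.of fun i j => tz g f (γ * X ^ ((i : ℕ) + j + 1)) with hy
  have hydet : ((y.det : ℤ) : ZMod q) = (Matrix.of fun i j : Fin (2 * g) =>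
      ((rd q γ * X ^ ((i : ℕ) + j)) %ₘ rd q r).coeff (2 * g - 1)).det := by
    have e2 := (Int.castRingHom (ZMod q)).map_det y
    have e3 : ((y.det : ℤ) : ZMod q) = Int.castRingHom (ZMod q) y.det := rfl
    rw [e3, e2]
    congr 1
    ext i j
    rw [RingHom.mapMatrix_apply, Matrix.map_apply, hy, Matrix.of_apply, Matrix.of_apply]
    have e4 : Int.castRingHom (ZMod q) (tz g f (γ * X ^ ((i : ℕ) + j + 1))) =
        ((tz g f (γ * X ^ ((i : ℕ) + j + 1)) : ℤ) : ZMod q) := rfl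
    rw [e4, tz_mod hf, hfb]
    have e5 : rd q (γ * X ^ ((i : ℕ) + j + 1)) = X * (rd q γ * X ^ ((i : ℕ) + j)) := by
      rw [rd, Polynomial.map_mul, Polynomial.map_pow, Polynomial.map_X]
      ring
    have e6 := X_mul_mod_coeff hrbm (rd q γ * X ^ ((i : ℕ) + j)) (2 * g - 1)
    rw [Nat.sub_add_cancel (by omega : 1 ≤ 2 * g)] at e6
    rw [e5, e6]
  obtain ⟨ε, hε, hdet⟩ := det_top' hrbm (by omega : 1 ≤ 2 * g) hrd (rd q γ)
  rw [← hydet] at hdet
  have hm0 : AdjoinRoot.mk (rd q r) (rd q γ) ≠ 0 := fun h => hγ (AdjoinRoot.mk_eq_zero.1 h)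
  have hfin : Finite (AdjoinRoot (rd q r)) := (card_adj hq.out hirr).2
  have hfd : FiniteDimensional (ZMod q) (AdjoinRoot (rd q r)) := Module.Finite.of_finite
  have hn0 : Algebra.norm (ZMod q) (AdjoinRoot.mk (rd q r) (rd q γ)) ≠ 0 := by
    rwa [Ne, Algebra.norm_eq_zero_iff]
  have hε0 : ε ≠ 0 := by rcases hε with h | h <;> rw [h] <;> simp
  have hεs : IsSquare ε := by
    rcases hε with h | h
    · rw [h]; exact IsSquare.one
    · rw [h, ZMod.exists_sq_eq_neg_one_iff]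
      omega
  have hq2 : (2 : ZMod q) ≠ 0 := by
    intro h
    have h3 : ((2 : ℕ) : ZMod q) = 0 := by exact_mod_cast h
    rw [ZMod.natCast_eq_zero_iff] at h3
    have := (Nat.prime_dvd_prime_iff_eq hq.out Nat.prime_two).1 h3
    omega
  have hsq : IsSquare ((y.det : ℤ) : ZMod q) ↔ IsSquare (AdjoinRoot.mk (rd q r) (rd q γ)) := by
    rw [hdet, ← Pool.Agent.N434.PJ.norm_isSquare (k := ZMod q) hq2 _ hm0]
    obtain ⟨d, hd⟩ := hεs
    have hd0 : d ≠ 0 := by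
      rintro rfl
      exact hε0 (by rw [hd, mul_zero])
    constructor
    · rintro ⟨z, hz⟩
      refine ⟨z / d, ?_⟩
      field_simp
      rw [hd] at hz
      linear_combination hz
    · rintro ⟨z, hz⟩
      exact ⟨d * z, by rw [hd, hz]; ring⟩
  have hmain := inv_block (q := q) (by omega) (g := g)
    (Matrix.of fun i j : Fin (2 * g + 1) => tz g f (P * (ee g r i * ee g r j))) ?_ ?_
    (fun j => tz g f (γ * (r * X ^ (j : ℕ)))) y ?_ ?_ ?_
  · by_cases h5 : IsSquare (AdjoinRoot.mk (rd q r) (rd q γ))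
    · rw [if_pos h5]
      rwa [if_pos (hsq.2 h5)] at hmain
    · rw [if_neg h5]
      rwa [if_neg (fun h => h5 (hsq.1 h))] at hmain
  · ext i j
    rw [Matrix.transpose_apply, Matrix.of_apply, Matrix.of_apply, mul_comm (ee g r j)]
  · rw [← ZMod.intCast_zmod_eq_zero_iff_dvd, Matrix.of_apply, tz_mod hf, hfb]
    have e1 : rd q (P * (ee g r 0 * ee g r 0)) = C (c₀ : ZMod q) * rd q r * rd q r * rd q r := by
      rw [rd, Polynomial.map_mul, Polynomial.map_mul]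
      have e2 : ee g r 0 = r := rfl
      rw [e2]
      rw [rd] at hP
      rw [hP, rd]
      ring
    rw [e1, corner hrbm hrd]
    refine mul_ne_zero ?_ (pow_ne_zero 2 ?_)
    · rw [Ne, ZMod.intCast_zmod_eq_zero_iff_dvd]
      exact hc
    · intro h0
      rw [← X_dvd_iff] at h0
      exact hrX (irreducible_X.dvd_symm hirr h0)
  · intro j
    rw [Matrix.of_apply, ← hkey]
    congr 1
    have e2 : ee g r 0 = r := rfl
    have e3 : ee g r j.succ = X ^ ((j : ℕ) + 1) := by rw [ee, Fin.cons_succ]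
    rw [e2, e3]
    ring
  · intro i j
    rw [Matrix.of_apply, hy, Matrix.of_apply, ← hkey]
    congr 1
    have e3 : ∀ j : Fin (2 * g), ee g r j.succ = X ^ ((j : ℕ) + 1) := by
      intro j; rw [ee, Fin.cons_succ]
    rw [e3, e3]
    ring
  · rw [hdet]
    exact mul_ne_zero hε0 hn0

/-! ### The square classes -/

section sq

variable {L : Type} [Field L] [NumberField L]

theorem sq1_iff {𝔮 : HeightOneSpectrum (𝓞 L)} {y : 𝓞 L} (hy : y ∉ 𝔮.asIdeal) :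
    Sq1 𝔮 (algebraMap (𝓞 L) L y) ↔ ∃ z : 𝓞 L, y - z ^ 2 ∈ 𝔮.asIdeal := by
  have hvy : 𝔮.valuation L (algebraMap (𝓞 L) L y) = 1 := 𝔮.valuation_eq_one_iff_notMem.mpr hy
  constructor
  · rintro ⟨s, hs⟩
    rw [hvy] at hs
    have hs1 : 𝔮.valuation L s ≤ 1 := by
      by_contra hgt
      push Not at hgt
      have h3 : 𝔮.valuation L (algebraMap (𝓞 L) L y) < 𝔮.valuation L (s ^ 2) := by
        rw [hvy, map_pow]
        exact one_lt_pow' hgt (by norm_num)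
      have h4 : 𝔮.valuation L (algebraMap (𝓞 L) L y - s ^ 2) = 𝔮.valuation L (s ^ 2) := by
        rw [Valuation.map_sub_swap]
        exact Valuation.map_sub_eq_of_lt_left _ h3
      rw [h4] at hs
      exact absurd (hvy ▸ h3) (not_lt.mpr hs.le)
    obtain ⟨z, hz⟩ := 𝔮.exists_valuation_sub_lt_of_integer hs1 1
    rw [Units.val_one] at hz
    refine ⟨z, ?_⟩
    rw [← 𝔮.valuation_lt_one_iff_mem (K := L)]
    change 𝔮.valuation L (algebraMap (𝓞 L) L (y - z ^ 2)) < 1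
    have e : algebraMap (𝓞 L) L (y - z ^ 2) = (algebraMap (𝓞 L) L y - s ^ 2) -
        (algebraMap (𝓞 L) L z - s) * (algebraMap (𝓞 L) L z + s) := by
      rw [map_sub, map_pow]
      ring
    rw [e]
    refine Valuation.map_sub_lt _ hs ?_
    rw [map_mul]
    have h5 : 𝔮.valuation L (algebraMap (𝓞 L) L z + s) ≤ 1 :=
      Valuation.map_add_le _ (𝔮.valuation_le_one _) hs1
    calc 𝔮.valuation L (algebraMap (𝓞 L) L z - s) * 𝔮.valuation L (algebraMap (𝓞 L) L z + s)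
        ≤ 𝔮.valuation L (algebraMap (𝓞 L) L z - s) * 1 := mul_le_mul_right h5 _
      _ = 𝔮.valuation L (algebraMap (𝓞 L) L z - s) := mul_one _
      _ < 1 := hz
  · rintro ⟨z, hz⟩
    refine ⟨algebraMap (𝓞 L) L z, ?_⟩
    rw [hvy, ← map_pow, ← map_sub]
    exact (𝔮.valuation_lt_one_iff_mem _).mpr hz

theorem sq1_psi {𝔮 : HeightOneSpectrum (𝓞 L)} {E : Type} [CommRing E] {ψ : 𝓞 L →+* E}
    (hψ : Function.Surjective ψ) (hk : 𝔮.asIdeal = RingHom.ker ψ) {y : 𝓞 L}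
    (hy : y ∉ 𝔮.asIdeal) : Sq1 𝔮 (algebraMap (𝓞 L) L y) ↔ IsSquare (ψ y) := by
  rw [sq1_iff hy]
  constructor
  · rintro ⟨z, hz⟩
    rw [hk, RingHom.mem_ker, map_sub, map_pow, sub_eq_zero] at hz
    exact ⟨ψ z, by rw [hz, sq]⟩
  · rintro ⟨z, hz⟩
    obtain ⟨z, rfl⟩ := hψ z
    refine ⟨z, ?_⟩
    rw [hk, RingHom.mem_ker, map_sub, map_pow, hz, sq, sub_self]

/-- An element of odd valuation. -/
theorem odd_val {𝔓 𝔮 : HeightOneSpectrum (𝓞 L)} (hne : 𝔓 ≠ 𝔮) {α : L} (h0 : α ≠ 0)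
    (hE : ¬ Ev 𝔮 α) : ∃ a : ℤ, 𝔮.valuation L α = exp (2 * a + 1) := by
  have hv : 𝔮.valuation L α ≠ 0 := (Valuation.ne_zero_iff _).mpr h0
  obtain ⟨n, hn⟩ : ∃ n : ℤ, 𝔮.valuation L α = exp n := ⟨log (𝔮.valuation L α), (exp_log hv).symm⟩
  rcases Int.even_or_odd' n with ⟨m, hm | hm⟩
  · exfalso
    obtain ⟨β, -, -, hβ⟩ := Pool.Agent.N862.PP.exists_two (L := L) hne 0 m
    refine hE ⟨β, ?_⟩
    rw [hβ, hn, hm, sq, ← exp_add]
    congr 1
    ring
  · exact ⟨m, by rw [hn, hm]⟩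

end sq

/-- **HQ.** -/
theorem hq (h1 : S_INT) (h2 : S_EXQ) (h4 : S_HUN) : S_HQ := by
  intro g W L _ _ f θ S r hg hG hsq hS q hqS hqF hcg 𝔮 hov hθ h hh0 hN hev
  obtain ⟨hqp, -, hq2g, hq8, hrm, hrd, -, hirr⟩ := hS q hqS
  obtain ⟨hbd, hbX⟩ := hbar hS hqS hg
  by_cases hE : Ev 𝔮 (aeval θ h)
  · rw [if_neg (by tauto)]
    refine h4 g L f θ hg hG hsq q (by omega) h hh0 hN fun 𝔓 hP => ?_
    by_cases h5 : 𝔓 = 𝔮
    · rw [h5]; exact hE
    · exact hev 𝔓 hP h5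
  obtain ⟨𝔓₁, 𝔮', ov1, ov2, hv1, hv2, hQ1, hQ2, hall⟩ := h2 g W L f θ S r hg hG hsq hS q hqS hcg
  have h𝔮 : 𝔮 = 𝔮' := by
    rcases hall 𝔮 hov with h' | h'
    · rw [h'] at hθ
      rw [hθ] at hv1
      exact absurd hv1 (lt_irrefl _)
    · exact h'
  subst h𝔮
  have hne : 𝔓₁ ≠ 𝔮 := by
    intro h0
    rw [h0, hv2] at hv1
    exact absurd hv1 (lt_irrefl _)
  obtain ⟨y1, hy1⟩ := hev 𝔓₁ ov1 hne
  have hvα1 : 𝔓₁.valuation L (aeval θ h) ≠ 0 := (Valuation.ne_zero_iff _).mpr hh0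
  have hy10 : 𝔓₁.valuation L y1 ≠ 0 := by
    intro h0
    rw [h0] at hy1
    exact hvα1 (by rw [hy1]; simp)
  obtain ⟨a, ha⟩ := odd_val hne hh0 hE
  obtain ⟨β, hβ0, hβ1, hβ2⟩ := Pool.Agent.N862.PP.exists_two (L := L) hne
    (-(log (𝔓₁.valuation L y1))) (-(a + 1))
  have hu1 : 𝔓₁.valuation L (aeval θ h * β ^ 2) = 1 := by
    rw [map_mul, map_pow, hβ1, hy1, WithZero.exp_neg, WithZero.exp_log hy10, ← mul_pow, mul_inv_cancel₀ hy10,
      one_pow]
  have hu2 : 𝔮.valuation L (aeval θ h * β ^ 2) = exp (-1 : ℤ) := by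
    rw [map_mul, map_pow, hβ2, ha, sq, ← exp_add, ← exp_add]
    congr 1
    ring
  obtain ⟨t, ht⟩ := theta_ex hG
  have hQi : Irreducible (q : ℤ) := Pool.Agent.N691.PQ.irr_nat hqp
  obtain ⟨c, z, hc, hz⟩ := Pool.Agent.N691.PQ.exists_den_Q (O := 𝓞 L)
    (Pool.Agent.N691.PQ.toG hG) ht hQi (aeval θ h * β ^ 2) (by
      intro 𝔓' hov'
      rcases hall 𝔓' (Pool.Agent.N691.PQ.ov_nat.2 hov') with h' | h'
      · rw [h', hu1]
      · rw [h', hu2, ← exp_zero, exp_le_exp]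
        norm_num)
  have hvc : ∀ 𝔓 : HeightOneSpectrum (𝓞 L), Ov q 𝔓 → 𝔓.valuation L (algebraMap ℤ L c) = 1 := by
    intro 𝔓' hov'
    rw [IsScalarTower.algebraMap_apply ℤ (𝓞 L) L]
    refine 𝔓'.valuation_eq_one_iff_notMem.mpr ?_
    rw [Pool.Agent.N691.PQ.ov_iff hQi (Pool.Agent.N691.PQ.ov_nat.1 hov')]
    exact hc
  have hc0 : algebraMap ℤ L c ≠ 0 := by
    intro h0
    have := hvc 𝔮 hov
    rw [h0, map_zero] at this
    exact zero_ne_one this
  obtain ⟨cc, hcc⟩ : ∃ cc : L, cc = algebraMap ℤ L c * β := ⟨_, rfl⟩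
  have hcc0 : cc ≠ 0 := by rw [hcc]; exact mul_ne_zero hc0 hβ0
  have hb : algebraMap (𝓞 L) L (algebraMap ℤ (𝓞 L) c * z) = aeval θ h * cc ^ 2 := by
    rw [map_mul, ← hz, ← IsScalarTower.algebraMap_apply ℤ (𝓞 L) L, hcc]
    ring
  have hb1 : 𝔓₁.valuation L (aeval θ h * cc ^ 2) = 1 := by
    have e : aeval θ h * cc ^ 2 = (algebraMap ℤ L c) ^ 2 * (aeval θ h * β ^ 2) := by rw [hcc]; ring
    rw [e, map_mul, map_pow, hvc 𝔓₁ ov1, hu1, one_pow, one_mul]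
  have hb2 : 𝔮.valuation L (aeval θ h * cc ^ 2) = exp (-1 : ℤ) := by
    have e : aeval θ h * cc ^ 2 = (algebraMap ℤ L c) ^ 2 * (aeval θ h * β ^ 2) := by rw [hcc]; ring
    rw [e, map_mul, map_pow, hvc 𝔮 hov, hu2, one_pow, one_mul]
  obtain ⟨P, hPd, hPe⟩ := ex_poly h1 hG hsq ht (algebraMap ℤ (𝓞 L) c * z)
  have hPα : aeval θ P = aeval θ h * cc ^ 2 := by rw [← ev_L ht, hPe, hb]
  -- the residue field
  have hfb : rd q f = X * rd q (r q) := by
    rw [map_eq_of_cg hcg, rd, Polynomial.map_mul, Polynomial.map_X]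
  obtain ⟨ψ, hψ⟩ := ex_psi h1 hG hsq ht q (rd q (r q)) (by rw [hfb]; exact ⟨X, X_mul⟩)
  have htn : t ∉ 𝔮.asIdeal := by
    rw [← ht] at hθ
    exact 𝔮.valuation_eq_one_iff_notMem.mp hθ
  have hker : 𝔮.asIdeal = RingHom.ker ψ :=
    eq_ker h1 hG hsq ht hqp hirr hψ hov ((mem_or hG ht hcg hov).resolve_left htn)
  have hbm : ev t P ∈ 𝔮.asIdeal := by
    rw [← 𝔮.valuation_lt_one_iff_mem (K := L)]
    change 𝔮.valuation L (algebraMap (𝓞 L) L (ev t P)) < 1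
    rw [ev_L ht, hPα, hb2, ← exp_zero, exp_lt_exp]
    norm_num
  have hbn : ev t P ∉ 𝔓₁.asIdeal := by
    rw [← 𝔓₁.valuation_eq_one_iff_notMem (K := L)]
    change 𝔓₁.valuation L (algebraMap (𝓞 L) L (ev t P)) = 1
    rw [ev_L ht, hPα, hb1]
  have hrbm : (rd q (r q)).Monic := hrm.map _
  obtain ⟨w, hw⟩ : rd q (r q) ∣ rd q P := by
    rw [hker, RingHom.mem_ker, hψ, AdjoinRoot.mk_eq_zero] at hbm
    exact hbm
  have hwC : w = C (w.coeff 0) := by
    by_cases hw0 : w = 0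
    · rw [hw0]; simp
    apply eq_C_of_natDegree_eq_zero
    have e1 : (rd q P).natDegree ≤ 2 * g := by
      refine le_trans natDegree_map_le ?_
      rw [← Nat.lt_succ_iff]
      by_cases hP0 : P = 0
      · rw [hP0, natDegree_zero]; omega
      · exact (natDegree_lt_iff_degree_lt hP0).2 hPd
    rw [hw, hrbm.natDegree_mul' hw0, hbd] at e1
    omega
  obtain ⟨c₀, hc₀⟩ := ZMod.intCast_surjective (w.coeff 0)
  have hPr : rd q P = C (c₀ : ZMod q) * rd q (r q) := by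
    rw [hw, hc₀, ← hwC, mul_comm]
  have hqc₀ : ¬ (q : ℤ) ∣ c₀ := by
    intro hd
    have e1 : (c₀ : ZMod q) = 0 := (ZMod.intCast_zmod_eq_zero_iff_dvd c₀ q).2 hd
    rw [e1, C_0, zero_mul] at hPr
    obtain ⟨P', rfl⟩ := map_rd_eq_zero hPr
    apply hbn
    rw [ev_CQ]
    exact 𝔓₁.asIdeal.mul_mem_right _ ov1
  obtain ⟨B, hB⟩ := map_rd_eq_zero (q := q) (p := P - C c₀ * r q) (by
    rw [rd, Polynomial.map_sub, Polynomial.map_mul, Polynomial.map_C]
    rw [rd] at hPr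
    rw [hPr]
    simp)
  obtain ⟨s, hs⟩ := map_rd_eq_zero (q := q) (p := X * r q - f) (by
    rw [rd, Polynomial.map_sub]
    rw [rd] at hfb
    rw [hfb, Polynomial.map_mul, Polynomial.map_X]
    exact sub_self _)
  obtain ⟨γ, hγ⟩ : ∃ γ : ℤ[X], γ = C c₀ * s + X * B := ⟨_, rfl⟩
  have hXP : X * P = C c₀ * f + C (q : ℤ) * γ := by
    rw [hγ]
    linear_combination X * hB + C c₀ * hs
  have hevγ : θ * (aeval θ h * cc ^ 2) = (q : L) * aeval θ γ := by
    have e1 := congrArg (aeval θ) hXP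
    rw [map_mul, map_add, map_mul, map_mul, hG.root, aeval_X, hPα] at e1
    rw [e1]
    simp
  have hqL : (q : L) ≠ 0 := by exact_mod_cast hqp.ne_zero
  have hvγ : 𝔮.valuation L (aeval θ γ) = 1 := by
    have e1 := congrArg (𝔮.valuation L) hevγ
    rw [(𝔮.valuation L).map_mul θ, (𝔮.valuation L).map_mul (q : L), hθ, hb2, hQ2, one_mul] at e1
    have e2 : (exp (-1 : ℤ) : WithZero (Multiplicative ℤ)) ≠ 0 := exp_ne_zero
    exact (mul_left_cancel₀ e2 (by rw [mul_one]; exact e1)).symm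
  have hγn : ev t γ ∉ 𝔮.asIdeal := by
    rw [← 𝔮.valuation_eq_one_iff_notMem (K := L)]
    change 𝔮.valuation L (algebraMap (𝓞 L) L (ev t γ)) = 1
    rw [ev_L ht, hvγ]
  have hγd : ¬ rd q (r q) ∣ rd q γ := by
    intro hd
    apply hγn
    rw [hker, RingHom.mem_ker, hψ, AdjoinRoot.mk_eq_zero]
    exact hd
  -- the square class
  have hS1 : Sq1 𝔮 (aeval θ h * (q * θ)) ↔
      IsSquare (AdjoinRoot.mk (rd q (r q)) (rd q γ)) := by
    rw [← hψ, ← sq1_psi (psi_surj hψ) hker hγn, ev_L ht]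
    have e1 : aeval θ γ = aeval θ h * (q * θ) * (cc / q) ^ 2 := by
      field_simp
      linear_combination (-1 : L) * hevγ
    rw [e1, Pool.Agent.N862.PP.sq1_mul_sq (div_ne_zero hcc0 hqL)]
  have hmat := poly_part hq8 hg hG.mon hfb hrm hbd hirr hbX hPr hqc₀ hXP hγd
  have hr0 : (r q).coeff 0 ≠ 0 := by
    intro h0
    have : X ∣ rd q (r q) := by
      rw [X_dvd_iff, rd, coeff_map, h0, map_zero]
    exact hbX (irreducible_X.dvd_symm hirr this)
  have hres := transfer hG (F := ℚ_[q]) (h := h)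
    (ε := if IsSquare (AdjoinRoot.mk (rd q (r q)) (rd q γ)) then 1 else -1)
    (bs g θ cc (r q)) (bs_li hG hcc0 hrd.le hr0) (by
      convert hmat using 1
      ext i j
      rw [Matrix.map_apply, Matrix.map_apply, Matrix.of_apply, Matrix.of_apply]
      have e1 : aeval θ h * (bs g θ cc (r q) i * bs g θ cc (r q) j) =
          aeval θ (P * (ee g (r q) i * ee g (r q) j)) := by
        rw [bs_ee, bs_ee, map_mul, map_mul, hPα]
        ring
      rw [e1, top_z, map_intCast]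
      rfl)
  have hif : (if ¬ Ev 𝔮 (aeval θ h) ∧ ¬ Sq1 𝔮 (aeval θ h * (q * θ)) then (-1 : ℤ) else 1) =
      if IsSquare (AdjoinRoot.mk (rd q (r q)) (rd q γ)) then 1 else -1 := by
    by_cases h5 : IsSquare (AdjoinRoot.mk (rd q (r q)) (rd q γ))
    · rw [if_pos h5, if_neg]
      exact fun h6 => h6.2 (hS1.2 h5)
    · rw [if_neg h5, if_pos]
      exact ⟨hE, fun h6 => h5 (hS1.1 h6)⟩
  rw [hif]
  exact hres

end Pool.Agent.N507.PQ
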