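import Mathlib

/-!
# Diagonalisation of symmetric matrices over local rings in which `2` is a unit

Project PQ (helper783), part of HQ (helper507).
-/

set_option autoImplicit false
set_option linter.all false

open Matrix
open scoped Classical

namespace Pool.Agent.N507.PQ

section gen

variable {n : ℕ} {R : Type} [CommRing R]

/-- the matrix `1 k; 0 A` -/
def bl (k : Fin n → R) (A : Matrix (Fin n) (Fin n) R) : Matrix (Fin (n + 1)) (Fin (n + 1)) R :=
  Matrix.of (Fin.cons (Fin.cons 1 k) (fun i => Fin.cons 0 (A i)))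

theorem bl_zz (k : Fin n → R) (A : Matrix (Fin n) (Fin n) R) : bl k A 0 0 = 1 := rfl

theorem bl_zs (k : Fin n → R) (A : Matrix (Fin n) (Fin n) R) (j : Fin n) :
    bl k A 0 j.succ = k j := rfl

theorem bl_sz (k : Fin n → R) (A : Matrix (Fin n) (Fin n) R) (j : Fin n) :
    bl k A j.succ 0 = 0 := rfl

theorem bl_ss (k : Fin n → R) (A : Matrix (Fin n) (Fin n) R) (i j : Fin n) :
    bl k A i.succ j.succ = A i j := rfl

theorem det_bl (k : Fin n → R) (A : Matrix (Fin n) (Fin n) R) : (bl k A).det = A.det := by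
  rw [Matrix.det_succ_column_zero, Fin.sum_univ_succ]
  have e1 : ∀ i : Fin n, (-1 : R) ^ ((i.succ : Fin (n + 1)) : ℕ) * bl k A i.succ 0 *
      ((bl k A).submatrix i.succ.succAbove Fin.succ).det = 0 := by
    intro i
    rw [bl_sz, mul_zero, zero_mul]
  rw [Finset.sum_eq_zero fun i _ => e1 i, add_zero, bl_zz, Fin.val_zero, pow_zero, one_mul,
    one_mul]
  congr 1

/-- The Schur complement with respect to the inverse `w` of the first entry. -/
def sc (w : R) (H : Matrix (Fin (n + 1)) (Fin (n + 1)) R) : Matrix (Fin n) (Fin n) R :=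
  Matrix.of fun i j => H i.succ j.succ - H i.succ 0 * (w * H 0 j.succ)

/-- Splitting off the first variable. -/
theorem split_off {H : Matrix (Fin (n + 1)) (Fin (n + 1)) R} (hs : H.IsSymm) {w : R}
    (hw : H 0 0 * w = 1) {V : Matrix (Fin n) (Fin n) R} {u : Fin n → R}
    (hV : V * Matrix.diagonal u * Vᵀ = sc w H) :
    (bl (fun i => w * H i.succ 0) Vᵀ)ᵀ * Matrix.diagonal (Fin.cons (H 0 0) u) *
      ((bl (fun i => w * H i.succ 0) Vᵀ)ᵀ)ᵀ = H := by
  have hs' : ∀ i : Fin n, H i.succ 0 = H 0 i.succ := fun i => hs.apply 0 i.succ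
  have hV' : ∀ i j, ∑ k, V i k * u k * V j k = sc w H i j := by
    intro i j
    rw [← hV, Matrix.mul_apply]
    refine Finset.sum_congr rfl fun k _ => ?_
    rw [Matrix.mul_diagonal, Matrix.transpose_apply]
  have e1 : ∀ (A : Matrix (Fin (n + 1)) (Fin (n + 1)) R) (d : Fin (n + 1) → R) (i j),
      (Aᵀ * Matrix.diagonal d * Aᵀᵀ) i j = ∑ k, A k i * d k * A k j := by
    intro A d i j
    rw [Matrix.mul_apply]
    refine Finset.sum_congr rfl fun k _ => ?_
    rw [Matrix.mul_diagonal, Matrix.transpose_apply, Matrix.transpose_apply,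
      Matrix.transpose_apply]
  ext i j
  rw [e1, Fin.sum_univ_succ]
  simp only [Fin.cons_zero, Fin.cons_succ]
  refine Fin.cases ?_ (fun i => ?_) i <;> refine Fin.cases ?_ (fun j => ?_) j
  · simp [bl_zz, bl_sz]
  · simp only [bl_zz, bl_zs, bl_sz, zero_mul, Finset.sum_const_zero, add_zero, one_mul]
    rw [← mul_assoc, hw, one_mul, hs']
  · simp only [bl_zz, bl_zs, bl_sz, mul_zero, Finset.sum_const_zero, add_zero, mul_one]
    rw [mul_right_comm, mul_comm w, hw, one_mul]
  · simp only [bl_zs, bl_ss, Matrix.transpose_apply]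
    rw [hV' i j]
    show w * H i.succ 0 * H 0 0 * (w * H j.succ 0) +
      (H i.succ j.succ - H i.succ 0 * (w * H 0 j.succ)) = H i.succ j.succ
    rw [hs' j]
    linear_combination (w * H i.succ 0 * H 0 j.succ) * hw

theorem det_sc {H : Matrix (Fin (n + 1)) (Fin (n + 1)) R} {w : R} (hw : H 0 0 * w = 1) :
    H.det = H 0 0 * (sc w H).det := by
  have e1 : H.det = (H * bl (fun j => -(w * H 0 j.succ)) 1).det := by
    rw [Matrix.det_mul, det_bl, Matrix.det_one, mul_one]
  have e2 : ∀ i, (H * bl (fun j => -(w * H 0 j.succ)) 1) i 0 = H i 0 := by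
    intro i
    rw [Matrix.mul_apply, Fin.sum_univ_succ, bl_zz, mul_one]
    simp [bl_sz]
  have e3 : ∀ i (j : Fin n), (H * bl (fun j => -(w * H 0 j.succ)) 1) i j.succ =
      H i j.succ - H i 0 * (w * H 0 j.succ) := by
    intro i j
    rw [Matrix.mul_apply, Fin.sum_univ_succ, bl_zs]
    have : ∀ l : Fin n, H i l.succ * bl (fun j => -(w * H 0 j.succ)) 1 l.succ j.succ =
        if l = j then H i l.succ else 0 := by
      intro l
      rw [bl_ss, Matrix.one_apply, mul_ite, mul_one, mul_zero]
    rw [Finset.sum_congr rfl fun l _ => this l, Finset.sum_ite_eq' Finset.univ j,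
      if_pos (Finset.mem_univ j)]
    ring
  rw [e1, Matrix.det_succ_row_zero, Fin.sum_univ_succ]
  have e4 : ∀ j : Fin n, (-1 : R) ^ ((j.succ : Fin (n + 1)) : ℕ) *
      (H * bl (fun j => -(w * H 0 j.succ)) 1) 0 j.succ *
      ((H * bl (fun j => -(w * H 0 j.succ)) 1).submatrix Fin.succ j.succ.succAbove).det = 0 := by
    intro j
    rw [e3]
    have : H 0 j.succ - H 0 0 * (w * H 0 j.succ) = 0 := by
      linear_combination -(H 0 j.succ) * hw
    rw [this, mul_zero, zero_mul]
  rw [Finset.sum_eq_zero fun j _ => e4 j, add_zero, e2, Fin.val_zero, pow_zero, one_mul]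
  congr 2
  ext i j
  show (H * bl (fun j => -(w * H 0 j.succ)) 1) i.succ j.succ = _
  rw [e3]
  rfl

theorem sc_symm {H : Matrix (Fin (n + 1)) (Fin (n + 1)) R} (hs : H.IsSymm) (w : R) :
    (sc w H).IsSymm := by
  ext i j
  show H j.succ i.succ - H j.succ 0 * (w * H 0 i.succ) =
    H i.succ j.succ - H i.succ 0 * (w * H 0 j.succ)
  rw [hs.apply i.succ j.succ, ← hs.apply 0 i.succ, ← hs.apply 0 j.succ]
  ring

end gen

/-- An invertible symmetric matrix has, in a suitable basis, an invertible first entry. -/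
theorem first_unit {R : Type} [CommRing R] [IsLocalRing R] (h2 : IsUnit (2 : R)) {n : ℕ}
    (U : Matrix (Fin (n + 1)) (Fin (n + 1)) R) (hs : U.IsSymm) (hU : IsUnit U.det) :
    ∃ P : Matrix (Fin (n + 1)) (Fin (n + 1)) R, IsUnit P.det ∧ IsUnit ((P * U * Pᵀ) 0 0) := by
  -- the diagonal case
  have key : ∀ U : Matrix (Fin (n + 1)) (Fin (n + 1)) R, (∃ i, IsUnit (U i i)) →
      ∃ P : Matrix (Fin (n + 1)) (Fin (n + 1)) R, IsUnit P.det ∧ IsUnit ((P * U * Pᵀ) 0 0) := by
    rintro U ⟨i, hi⟩
    refine ⟨(1 : Matrix (Fin (n + 1)) (Fin (n + 1)) R).submatrix (Equiv.swap 0 i) id, ?_, ?_⟩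
    · rw [Matrix.det_permute]
      rw [Matrix.det_one, mul_one]
      exact ((Equiv.Perm.sign (Equiv.swap 0 i)).isUnit).map (Int.castRingHom R)
    · have e : ((1 : Matrix (Fin (n + 1)) (Fin (n + 1)) R).submatrix (Equiv.swap 0 i) id * U *
          ((1 : Matrix (Fin (n + 1)) (Fin (n + 1)) R).submatrix (Equiv.swap 0 i) id)ᵀ) 0 0 =
            U i i := by
        simp [Matrix.mul_apply, Matrix.one_apply]
      rw [e]
      exact hi
  by_cases hd : ∃ i, IsUnit (U i i)
  · exact key U hd
  · push Not at hd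
    obtain ⟨i, j, hij⟩ : ∃ i j, IsUnit (U i j) := by
      by_contra hcon
      push Not at hcon
      have h1 : U.det ∈ IsLocalRing.maximalIdeal R := by
        rw [Matrix.det_succ_row_zero]
        refine Ideal.sum_mem _ fun j _ => ?_
        refine Ideal.mul_mem_right _ _ (Ideal.mul_mem_left _ _ ?_)
        exact (IsLocalRing.mem_maximalIdeal _).2 (hcon 0 j)
      exact (IsLocalRing.mem_maximalIdeal _).1 h1 hU
    have hne : i ≠ j := by
      rintro rfl
      exact hd i hij
    -- the transvection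
    have hT : (Matrix.transvection i j (1 : R)).det = 1 := Matrix.det_transvection_of_ne i j hne 1
    have e : (Matrix.transvection i j (1 : R) * U * (Matrix.transvection i j (1 : R))ᵀ) i i =
        U i i + U j j + 2 * U i j := by
      have e1 : ∀ k, (Matrix.transvection i j (1 : R) * U) i k = U i k + U j k := by
        intro k
        rw [Matrix.transvection_mul_apply_same, one_mul]
      have e2 : ∀ A : Matrix (Fin (n + 1)) (Fin (n + 1)) R,
          (A * (Matrix.transvection i j (1 : R))ᵀ) i i = A i i + A i j := by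
        intro A
        rw [Matrix.mul_apply]
        simp only [Matrix.transpose_apply, Matrix.transvection, Matrix.add_apply,
          Matrix.one_apply, Matrix.single_apply, mul_add, Finset.sum_add_distrib, mul_ite, mul_one,
          mul_zero]
        simp only [true_and, Finset.sum_ite_eq, Finset.mem_univ, if_true]
      rw [e2, e1, e1, hs.apply i j]
      ring
    obtain ⟨P, hP1, hP2⟩ := key (Matrix.transvection i j (1 : R) * U *
      (Matrix.transvection i j (1 : R))ᵀ) ⟨i, by
        rw [e]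
        by_contra h1
        have h2' : U i i + U j j ∈ IsLocalRing.maximalIdeal R :=
          Ideal.add_mem _ ((IsLocalRing.mem_maximalIdeal _).2 (hd i))
            ((IsLocalRing.mem_maximalIdeal _).2 (hd j))
        have h3 := Ideal.sub_mem _ ((IsLocalRing.mem_maximalIdeal _).2 h1) h2'
        rw [add_sub_cancel_left] at h3
        exact (IsLocalRing.mem_maximalIdeal _).1 h3 (h2.mul hij)⟩
    refine ⟨P * Matrix.transvection i j (1 : R), ?_, ?_⟩
    · rw [Matrix.det_mul, hT, mul_one]
      exact hP1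
    · rw [Matrix.transpose_mul]
      simpa only [Matrix.mul_assoc] using hP2

/-- Diagonalisation of unimodular symmetric matrices. -/
theorem diagonalize {R : Type} [CommRing R] [IsLocalRing R] (h2 : IsUnit (2 : R)) :
    ∀ (n : ℕ) (U : Matrix (Fin n) (Fin n) R), U.IsSymm → IsUnit U.det →
      ∃ (V : Matrix (Fin n) (Fin n) R) (u : Fin n → R), IsUnit V.det ∧ (∀ i, IsUnit (u i)) ∧
        V * Matrix.diagonal u * Vᵀ = U := by
  intro n
  induction n with
  | zero =>
    intro U _ _
    exact ⟨1, fun i => i.elim0, by rw [Matrix.det_one]; exact isUnit_one, fun i => i.elim0,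
      Subsingleton.elim _ _⟩
  | succ n ih =>
    intro U hs hU
    obtain ⟨P, hP, hP0⟩ := first_unit h2 U hs hU
    set H := P * U * Pᵀ with hH
    have hHs : H.IsSymm := by
      rw [hH, Matrix.IsSymm, Matrix.transpose_mul, Matrix.transpose_mul, Matrix.transpose_transpose,
        hs.eq, Matrix.mul_assoc]
    have hHd : IsUnit H.det := by
      rw [hH, Matrix.det_mul, Matrix.det_mul, Matrix.det_transpose]
      exact (hP.mul hU).mul hP
    obtain ⟨w, hw⟩ := hP0.exists_right_inv
    have hsc : IsUnit (sc w H).det := by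
      have h1 := det_sc hw
      rw [h1] at hHd
      exact isUnit_of_mul_isUnit_right hHd
    obtain ⟨V, u, hV, hu, hVu⟩ := ih (sc w H) (sc_symm hHs w) hsc
    have h1 := split_off hHs hw hVu
    set B := (bl (fun i => w * H i.succ 0) Vᵀ)ᵀ with hB
    have hBd : IsUnit B.det := by
      rw [hB, Matrix.det_transpose, det_bl, Matrix.det_transpose]
      exact hV
    refine ⟨P⁻¹ * B, Fin.cons (H 0 0) u, ?_, ?_, ?_⟩
    · rw [Matrix.det_mul]
      exact ((Matrix.isUnit_nonsing_inv_det_iff).2 hP).mul hBd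
    · intro i
      refine Fin.cases ?_ (fun i => ?_) i
      · exact hP0
      · exact hu i
    · rw [Matrix.transpose_mul]
      have e1 : P⁻¹ * B * Matrix.diagonal (Fin.cons (H 0 0) u) * (Bᵀ * (P⁻¹)ᵀ) =
          P⁻¹ * (B * Matrix.diagonal (Fin.cons (H 0 0) u) * Bᵀ) * (P⁻¹)ᵀ := by
        simp only [Matrix.mul_assoc]
      rw [e1, h1, hH]
      calc P⁻¹ * (P * U * Pᵀ) * (P⁻¹)ᵀ = (P⁻¹ * P) * U * (P⁻¹ * P)ᵀ := by
            rw [Matrix.transpose_mul]
            simp only [Matrix.mul_assoc]
        _ = U := by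
            rw [Matrix.nonsing_inv_mul _ hP, Matrix.transpose_one, Matrix.one_mul,
              Matrix.mul_one]

end Pool.Agent.N507.PQ
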