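import Pool.Agent.N507.PQ.Hs
import Pool.Agent.N507.PQ.Diag

/-!
# Gram matrices over `ℚ_q`

Project PQ (helper783), part of HQ (helper507).
-/

set_option autoImplicit false
set_option linter.all false

open Polynomial IsDedekindDomain Matrix NumberField WithZero
open scoped Classical

namespace Pool.Agent.N507.PQ

open Pool.Agent.N352.PJ (Mt)
open Pool.Agent.N783.PQ
open Pool.Agent.N202.M4 (hasse hil)

section top

variable {L : Type} [Field L] [NumberField L] {g : ℕ} {f : ℤ[X]} {θ : L}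

theorem top_pw (hG : IsGen g f θ) (i : Fin (2 * g + 1)) :
    hG.top (θ ^ (i : ℕ)) = if i = Fin.last (2 * g) then 1 else 0 := by
  rw [← hG.basis_apply, IsGen.top, Module.Basis.coord_apply, Module.Basis.repr_self,
    Finsupp.single_apply]

theorem ovQ_mon (hG : IsGen g f θ) : (ov ℚ f).Monic := hG.mon.map _

theorem ovQ_deg (hG : IsGen g f θ) : (ov ℚ f).natDegree = 2 * g + 1 := by
  rw [hG.mon.natDegree_map, hG.deg]

theorem ovQ_root (hG : IsGen g f θ) : aeval θ (ov ℚ f) = 0 := by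
  have h1 := hG.root
  rw [aeval_def] at h1 ⊢
  rw [eval₂_map]
  have e : (algebraMap ℚ L).comp (Int.castRingHom ℚ) = algebraMap ℤ L := RingHom.ext_int _ _
  rw [e]
  exact h1

theorem top_poly (hG : IsGen g f θ) (P : ℚ[X]) :
    hG.top (aeval θ P) = (P %ₘ ov ℚ f).coeff (2 * g) := by
  rw [← aeval_modByMonic_eq_self_of_root (ovQ_root hG)]
  have h1 : ov ℚ f ≠ 1 := by
    intro h
    have h2 := ovQ_deg hG
    rw [h, natDegree_one] at h2
    omega
  have h3 := natDegree_modByMonic_lt P (ovQ_mon hG) h1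
  rw [ovQ_deg hG] at h3
  rw [aeval_eq_sum_range' h3, Finset.sum_range, map_sum,
    Finset.sum_eq_single (Fin.last (2 * g))]
  · rw [map_smul, top_pw, if_pos rfl]
    simp
  · intro i _ hi
    rw [map_smul, top_pw, if_neg hi, smul_zero]
  · intro h
    exact absurd (Finset.mem_univ _) h

theorem top_z (hG : IsGen g f θ) (p : ℤ[X]) :
    hG.top (aeval θ p) = (((p %ₘ f).coeff (2 * g) : ℤ) : ℚ) := by
  have e1 : aeval θ p = aeval θ (p.map (Int.castRingHom ℚ)) := by
    rw [aeval_def, aeval_def, eval₂_map]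
    congr 1
    exact RingHom.ext_int _ _
  rw [e1, top_poly, ← map_modByMonic _ hG.mon, coeff_map]
  rfl

theorem Gm_eq (hG : IsGen g f θ) (F : Type) [Field F] [CharZero F] (h : ℚ[X]) :
    Gm g (ov F f) (oq F h) = (Matrix.of fun i j : Fin (2 * g + 1) =>
      hG.top (aeval θ h * (θ ^ (i : ℕ) * θ ^ (j : ℕ)))).map (Rat.castHom F) := by
  ext i j
  rw [Matrix.map_apply, Matrix.of_apply]
  have e1 : aeval θ h * (θ ^ (i : ℕ) * θ ^ (j : ℕ)) = aeval θ (h * X ^ ((i : ℕ) + j)) := by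
    rw [map_mul, map_pow, aeval_X, pow_add]
  rw [e1, top_poly, Gm, Matrix.of_apply, tp]
  have e2 : ov F f = (ov ℚ f).map (Rat.castHom F) := by
    rw [ov, ov, Polynomial.map_map]
    congr 1
    exact RingHom.ext_int _ _
  have e3 : oq F h * X ^ ((i : ℕ) + j) = (h * X ^ ((i : ℕ) + j)).map (Rat.castHom F) := by
    rw [Polynomial.map_mul, Polynomial.map_pow, Polynomial.map_X]
  rw [e2, e3, ← map_modByMonic _ (ovQ_mon hG), coeff_map]

/-- Change of the basis. -/
theorem transfer (hG : IsGen g f θ) {F : Type} [Field F] [CharZero F] {h : ℚ[X]} {ε : ℤ}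
    (e : Fin (2 * g + 1) → L) (hli : LinearIndependent ℚ e)
    (hinv : HasInv ((Matrix.of fun i j : Fin (2 * g + 1) =>
      hG.top (aeval θ h * (e i * e j))).map (Rat.castHom F)) ε) :
    HasInv (Gm g (ov F f) (oq F h)) ε := by
  set E : Mt g ℚ := (hG.basis.toMatrix e)ᵀ with hE
  set G0 : Mt g ℚ := Matrix.of fun i j : Fin (2 * g + 1) =>
    hG.top (aeval θ h * (θ ^ (i : ℕ) * θ ^ (j : ℕ))) with hG0
  have hEe : ∀ i, e i = ∑ a, E i a • θ ^ (a : ℕ) := by
    intro i
    conv_lhs => rw [← hG.basis.sum_repr (e i)]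
    refine Finset.sum_congr rfl fun a _ => ?_
    rw [hG.basis_apply]
    rfl
  have hEd : IsUnit E.det := by
    rw [hE, Matrix.det_transpose, ← Module.Basis.det_apply]
    refine hG.basis.isUnit_det (basisOfLinearIndependentOfCardEqFinrank hli
      (by rw [Fintype.card_fin, hG.rank])) |> fun h => ?_
    rwa [coe_basisOfLinearIndependentOfCardEqFinrank] at h
  have hK : (Matrix.of fun i j : Fin (2 * g + 1) => hG.top (aeval θ h * (e i * e j))) =
      E * G0 * Eᵀ := by
    ext i j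
    rw [Matrix.of_apply, Matrix.mul_apply, hEe i, hEe j]
    have e1 : aeval θ h * ((∑ a, E i a • θ ^ (a : ℕ)) * ∑ b, E j b • θ ^ (b : ℕ)) =
        ∑ b, ∑ a, (E i a * E j b) • (aeval θ h * (θ ^ (a : ℕ) * θ ^ (b : ℕ))) := by
      rw [Finset.sum_mul_sum, Finset.sum_comm, Finset.mul_sum]
      refine Finset.sum_congr rfl fun b _ => ?_
      rw [Finset.mul_sum]
      refine Finset.sum_congr rfl fun a _ => ?_
      rw [smul_mul_smul_comm, mul_smul_comm]
    rw [e1, map_sum]
    refine Finset.sum_congr rfl fun b _ => ?_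
    rw [map_sum, Matrix.mul_apply, Matrix.transpose_apply, Finset.sum_mul]
    refine Finset.sum_congr rfl fun a _ => ?_
    rw [map_smul, smul_eq_mul, hG0, Matrix.of_apply]
    ring
  rw [hK] at hinv
  obtain ⟨a, T, ha, hT, hh⟩ := hinv
  set EF : Mt g F := E.map (Rat.castHom F) with hEF
  have hEFd : IsUnit EF.det := by
    have h1 := (Rat.castHom F).map_det E
    rw [RingHom.mapMatrix_apply] at h1
    rw [hEF, ← h1]
    exact hEd.map _
  have hTT : T * Matrix.diagonal a * Tᵀ = EF * G0.map (Rat.castHom F) * EFᵀ := by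
    rw [hT, Matrix.map_mul, Matrix.map_mul]
    rfl
  refine ⟨a, EF⁻¹ * T, ha, ?_, hh⟩
  rw [Gm_eq hG]
  calc EF⁻¹ * T * Matrix.diagonal a * (EF⁻¹ * T)ᵀ =
        EF⁻¹ * (T * Matrix.diagonal a * Tᵀ) * (EF⁻¹)ᵀ := by
        rw [Matrix.transpose_mul]
        simp only [Matrix.mul_assoc]
    _ = (EF⁻¹ * EF) * G0.map (Rat.castHom F) * (EF⁻¹ * EF)ᵀ := by
        rw [hTT, Matrix.transpose_mul]
        simp only [Matrix.mul_assoc]
    _ = _ := by
        rw [Matrix.nonsing_inv_mul _ hEFd, Matrix.transpose_one, Matrix.one_mul, Matrix.mul_one]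

/-- The basis `c r(θ), c θ, ..., c θ ^ (2 g)`. -/
noncomputable def bs (g : ℕ) (θ c : L) (r : ℤ[X]) : Fin (2 * g + 1) → L :=
  Fin.cons (c * aeval θ r) (fun j : Fin (2 * g) => c * θ ^ ((j : ℕ) + 1))

theorem bs_li (hG : IsGen g f θ) {c : L} (hc : c ≠ 0) {r : ℤ[X]} (hr : r.natDegree ≤ 2 * g)
    (hr0 : r.coeff 0 ≠ 0) : LinearIndependent ℚ (bs g θ c r) := by
  rw [Fintype.linearIndependent_iff]
  intro a ha
  rw [Fin.sum_univ_succ] at ha
  simp only [bs, Fin.cons_zero, Fin.cons_succ] at ha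
  set d : Fin (2 * g + 1) → ℚ := Fin.cons 0 (fun j => a j.succ) with hd
  have h1 : ∑ i : Fin (2 * g + 1), (a 0 * (r.coeff i : ℚ) + d i) • hG.basis i = 0 := by
    have h2 : c * (∑ i : Fin (2 * g + 1), (a 0 * (r.coeff i : ℚ) + d i) • hG.basis i) = 0 := by
      rw [← ha]
      have e1 : aeval θ r = ∑ i : Fin (2 * g + 1), (r.coeff i : ℚ) • θ ^ (i : ℕ) := by
        rw [aeval_eq_sum_range' (Nat.lt_succ_of_le hr), Finset.sum_range]
        refine Finset.sum_congr rfl fun i _ => ?_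
        rw [Algebra.smul_def, Algebra.smul_def]
        simp
      have e2 : ∑ i : Fin (2 * g + 1), d i • θ ^ (i : ℕ) =
          ∑ j : Fin (2 * g), a j.succ • θ ^ ((j : ℕ) + 1) := by
        rw [Fin.sum_univ_succ, hd]
        simp only [Fin.cons_zero, Fin.cons_succ, zero_smul, zero_add, Fin.val_succ]
      rw [e1]
      simp only [hG.basis_apply, add_smul, Finset.sum_add_distrib, mul_add, mul_smul]
      rw [e2, ← Finset.smul_sum, mul_smul_comm]
      congr 1
      rw [Finset.mul_sum]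
      refine Finset.sum_congr rfl fun j _ => ?_
      rw [mul_smul_comm]
    exact (mul_eq_zero.1 h2).resolve_left hc
  have h2 := Fintype.linearIndependent_iff.1 hG.basis.linearIndependent _ h1
  have h3 : a 0 = 0 := by
    have h4 := h2 0
    simp only [hd, Fin.cons_zero, add_zero, Fin.val_zero] at h4
    exact (mul_eq_zero.1 h4).resolve_right (by exact_mod_cast hr0)
  intro i
  refine Fin.cases h3 (fun j => ?_) i
  have h4 := h2 j.succ
  simp only [hd, Fin.cons_succ, h3, zero_mul, zero_add] at h4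
  exact h4

end top

/-- The inverse of the Hasse invariant of a matrix which is `q` times a unimodular matrix up to the
first entry. -/
theorem inv_block {q : ℕ} [hq : Fact q.Prime] (hq4 : q % 4 = 1) {g : ℕ}
    (K : Matrix (Fin (2 * g + 1)) (Fin (2 * g + 1)) ℤ) (hKs : K.IsSymm)
    (h00 : ¬ (q : ℤ) ∣ K 0 0) (x : Fin (2 * g) → ℤ) (y : Matrix (Fin (2 * g)) (Fin (2 * g)) ℤ)
    (h0 : ∀ j : Fin (2 * g), K 0 j.succ = q * x j)
    (h1 : ∀ i j : Fin (2 * g), K i.succ j.succ = q * y i j)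
    (hy : ((y.det : ℤ) : ZMod q) ≠ 0) :
    HasInv (K.map (Int.cast : ℤ → ℚ_[q])) (if IsSquare ((y.det : ℤ) : ZMod q) then 1 else -1) := by
  have hq2 : q ≠ 2 := by rintro rfl; norm_num at hq4
  have h2 : IsUnit (2 : ℤ_[q]) := by
    rw [unit_iff, map_ofNat]
    intro h
    have h3 : ((2 : ℕ) : ZMod q) = 0 := by exact_mod_cast h
    rw [ZMod.natCast_eq_zero_iff] at h3
    exact hq2 ((Nat.prime_dvd_prime_iff_eq hq.out Nat.prime_two).1 h3)
  have hqz : ((q : ℤ) : ℚ_[q]) ≠ 0 := by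
    rw [Int.cast_natCast, Nat.cast_ne_zero]
    exact hq.out.ne_zero
  have hq0 : (q : ℚ_[q]) ≠ 0 := by exact_mod_cast hqz
  have hK00 : IsUnit ((K 0 0 : ℤ) : ℤ_[q]) := by
    rw [unit_iff, Pool.Agent.W335.BMX.toZMod_int, Ne, ZMod.intCast_zmod_eq_zero_iff_dvd]
    exact h00
  obtain ⟨w, hw⟩ := hK00.exists_right_inv
  have hys : y.IsSymm := by
    ext i j
    have e1 := h1 i j
    have e2 := h1 j i
    rw [← hKs.apply i.succ j.succ, e2] at e1
    have hqz' : (q : ℤ) ≠ 0 := by exact_mod_cast hq.out.ne_zero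
    rw [Matrix.transpose_apply]
    exact mul_left_cancel₀ hqz' e1
  set U : Matrix (Fin (2 * g)) (Fin (2 * g)) ℤ_[q] :=
    Matrix.of fun i j => (y i j : ℤ_[q]) - q * ((x i : ℤ_[q]) * (w * (x j : ℤ_[q]))) with hU
  have hUs : U.IsSymm := by
    ext i j
    rw [Matrix.transpose_apply, hU, Matrix.of_apply, Matrix.of_apply, hys.apply i j]
    ring
  have hUd : PadicInt.toZMod U.det = ((y.det : ℤ) : ZMod q) := by
    have e1 := (PadicInt.toZMod (p := q)).map_det U
    have e2 := (Int.castRingHom (ZMod q)).map_det y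
    rw [e1]
    have e3 : ((y.det : ℤ) : ZMod q) = Int.castRingHom (ZMod q) y.det := rfl
    rw [e3, e2]
    congr 1
    ext i j
    simp only [RingHom.mapMatrix_apply, Matrix.map_apply, hU, Matrix.of_apply, map_sub, map_mul,
      map_intCast, map_natCast, CharP.cast_eq_zero, zero_mul, sub_zero, eq_intCast]
  obtain ⟨V, u, hV, hu, hVu⟩ := diagonalize h2 (2 * g) U hUs (by
    rw [unit_iff, hUd]
    exact hy)
  -- over the field
  set H : Matrix (Fin (2 * g + 1)) (Fin (2 * g + 1)) ℚ_[q] := K.map (Int.cast : ℤ → ℚ_[q]) with hH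
  have hHs : H.IsSymm := by
    ext i j
    rw [Matrix.transpose_apply, hH, Matrix.map_apply, Matrix.map_apply, hKs.apply]
  have hHw : H 0 0 * (w : ℚ_[q]) = 1 := by
    have := congrArg (fun z : ℤ_[q] => (z : ℚ_[q])) hw
    push_cast at this
    exact this
  set V' : Matrix (Fin (2 * g)) (Fin (2 * g)) ℚ_[q] := V.map (fun z : ℤ_[q] => (z : ℚ_[q])) with hV'
  set u' : Fin (2 * g) → ℚ_[q] := fun i => q * (u i : ℚ_[q]) with hu'
  have hVu' : V' * Matrix.diagonal u' * V'ᵀ = sc (w : ℚ_[q]) H := by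
    ext i j
    have e1 := congrFun (congrFun hVu i) j
    rw [Matrix.mul_apply] at e1 ⊢
    have e2 := congrArg (fun z : ℤ_[q] => (q : ℚ_[q]) * PadicInt.Coe.ringHom z) e1
    simp only [Matrix.mul_diagonal, Matrix.transpose_apply, hU, Matrix.of_apply, map_sum, map_mul,
      map_sub, map_intCast, map_natCast] at e2
    have e3 : sc (w : ℚ_[q]) H i j = (q : ℚ_[q]) * ((y i j : ℚ_[q]) -
        q * ((x i : ℚ_[q]) * (w * (x j : ℚ_[q])))) := by
      show H i.succ j.succ - H i.succ 0 * (w * H 0 j.succ) = _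
      have e4 : K i.succ 0 = q * x i := by rw [← h0 i]; exact hKs.apply 0 i.succ
      simp only [hH, Matrix.map_apply, h0, h1, e4]
      push_cast
      ring
    rw [e3]
    refine Eq.trans ?_ e2
    rw [Finset.mul_sum]
    refine Finset.sum_congr rfl fun k _ => ?_
    rw [Matrix.mul_diagonal, Matrix.transpose_apply, hV', Matrix.map_apply, Matrix.map_apply, hu']
    show (V i k : ℚ_[q]) * (q * (u k : ℚ_[q])) * (V j k : ℚ_[q]) =
      q * ((V i k : ℚ_[q]) * (u k : ℚ_[q]) * (V j k : ℚ_[q]))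
    ring
  have hT := split_off hHs hHw hVu'
  have hsy := Pool.Agent.N446.M4.sym_ q
  have hune : ∀ i, (u i : ℚ_[q]) ≠ 0 := by
    intro i
    rw [Ne, PadicInt.coe_eq_zero]
    exact (hu i).ne_zero
  have hH0 : H 0 0 ≠ 0 := left_ne_zero_of_mul_eq_one hHw
  refine ⟨Fin.cons (H 0 0) u', _, ?_, hT, ?_⟩
  · intro i
    refine Fin.cases ?_ (fun i => ?_) i
    · exact hH0
    · exact mul_ne_zero hq0 (hune i)
  · rw [hasse_sg hq2, mul_one, List.ofFn_cons]
    set us : List ℚ_[q] := List.ofFn fun i => (u i : ℚ_[q]) with hus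
    have e1 : List.ofFn u' = us.map fun z => (q : ℚ_[q]) * z := by
      rw [hus, List.map_ofFn]
      rfl
    have hmem : ∀ z ∈ us, ∃ v : ℤ_[q], IsUnit v ∧ z = (v : ℚ_[q]) := by
      intro z hz
      rw [hus, List.mem_ofFn] at hz
      obtain ⟨i, rfl⟩ := hz
      exact ⟨u i, hu i, rfl⟩
    have e2 : hasse (hil ℚ_[q]) (H 0 0 :: us.map fun z => (q : ℚ_[q]) * z) =
        hil ℚ_[q] (q : ℚ_[q]) us.prod := by
      refine hasse_main hsy hH0 hq0 (hil_pp hq4) us ?_ ?_ ?_ ?_
      · intro z hz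
        obtain ⟨v, hv, rfl⟩ := hmem z hz
        rw [Ne, PadicInt.coe_eq_zero]
        exact hv.ne_zero
      · intro z hz z' hz'
        obtain ⟨v, hv, rfl⟩ := hmem z hz
        obtain ⟨v', hv', rfl⟩ := hmem z' hz'
        exact hil_units hq2 hv hv'
      · intro z hz
        obtain ⟨v, hv, rfl⟩ := hmem z hz
        have e3 : H 0 0 = (((K 0 0 : ℤ) : ℤ_[q]) : ℚ_[q]) := by
          rw [hH, Matrix.map_apply]
          push_cast
          rfl
        rw [e3]
        exact hil_units hq2 hK00 hv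
      · rw [hus, List.length_ofFn]
        exact even_two_mul g
    have e3 : us.prod = ((∏ i, u i : ℤ_[q]) : ℚ_[q]) := by
      rw [hus, List.prod_ofFn]
      exact (map_prod PadicInt.Coe.ringHom u Finset.univ).symm
    have hpu : IsUnit (∏ i, u i) := IsUnit.prod_univ_iff.2 hu
    have e4 : U.det = V.det ^ 2 * ∏ i, u i := by
      rw [← hVu, Matrix.det_mul, Matrix.det_mul, Matrix.det_transpose, Matrix.det_diagonal]
      ring
    have e5 : IsSquare (PadicInt.toZMod (∏ i, u i)) ↔ IsSquare ((y.det : ℤ) : ZMod q) := by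
      have hv0 := (unit_iff V.det).1 hV
      rw [← hUd, e4, map_mul, map_pow]
      constructor
      · rintro ⟨z, hz⟩
        exact ⟨PadicInt.toZMod V.det * z, by rw [hz]; ring⟩
      · rintro ⟨z, hz⟩
        refine ⟨z / PadicInt.toZMod V.det, ?_⟩
        field_simp
        linear_combination hz
    rw [e1, e2, e3, hil_p hq2 hpu]
    by_cases h5 : IsSquare ((y.det : ℤ) : ZMod q)
    · rw [if_pos (e5.2 h5), if_pos h5]
    · rw [if_neg (fun h => h5 (e5.1 h)), if_neg h5]

end Pool.Agent.N507.PQ
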