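import Pool.Agent.N783.PQ.Loc
import Pool.Agent.N446.M4.Sym
import Pool.Agent.N424.M4.Has
import Pool.Agent.W335.BMX.Odd

/-!
# Hasse invariants of diagonal forms over `ℚ_q`, `q` odd

Project PQ (helper783), part of HQ (helper507).
-/

set_option autoImplicit false
set_option linter.all false

open Pool.Agent.N202.M4 (hasse hil IsSymbol)
open Pool.Agent.W313.BMX (Splits)
open Pool.Agent.N446.M4 (spl_comm spl_sq spl_sq' hil_eq_one hil_congr hil_pm hil_symm sym_)
open Pool.Agent.W335.BMX (sq_of_residue toZMod_int isSquare_coe)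

namespace Pool.Agent.N507.PQ

section sym

variable {F : Type} [Field F] {h : F → F → ℤ}

theorem hasse_units (l : List F) (hl : ∀ x ∈ l, ∀ y ∈ l, h x y = 1) : hasse h l = 1 := by
  induction l with
  | nil => rfl
  | cons a l ih =>
    rw [hasse, ih fun x hx y hy => hl x (List.mem_cons_of_mem _ hx) y (List.mem_cons_of_mem _ hy),
      mul_one]
    refine List.prod_eq_one fun x hx => ?_
    obtain ⟨y, hy, rfl⟩ := List.mem_map.1 hx
    exact hl a List.mem_cons_self y (List.mem_cons_of_mem _ hy)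

theorem prod_ne {l : List F} (hl : ∀ x ∈ l, x ≠ 0) : l.prod ≠ 0 := by
  intro h0
  rw [List.prod_eq_zero_iff] at h0
  exact hl 0 h0 rfl

theorem h_scaled (hs : IsSymbol h) {q u v : F} (hq : q ≠ 0) (hqq : h q q = 1) (hu : u ≠ 0)
    (hv : v ≠ 0) (huv : h u v = 1) : h (q * u) (q * v) = h q u * h q v := by
  have hqu : q * u ≠ 0 := mul_ne_zero hq hu
  rw [hs.mul _ _ _ hqu hq hv, hs.symm (q * u) q, hs.symm (q * u) v, hs.mul _ _ _ hq hq hu,
    hs.mul _ _ _ hv hq hu, hqq, hs.symm v u, huv, hs.symm v q, one_mul, mul_one]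

theorem hasse_scaled (hs : IsSymbol h) {q : F} (hq : q ≠ 0) (hqq : h q q = 1) (us : List F)
    (hne : ∀ u ∈ us, u ≠ 0) (hun : ∀ u ∈ us, ∀ v ∈ us, h u v = 1) :
    hasse h (us.map fun x => q * x) * h q us.prod = (h q us.prod) ^ us.length := by
  induction us with
  | nil =>
    rw [List.map_nil, List.prod_nil, Pool.Agent.N424.M4.h_one hs hq]
    rfl
  | cons u us ih =>
    have hne' : ∀ x ∈ us, x ≠ 0 := fun x hx => hne x (List.mem_cons_of_mem _ hx)
    have hu : u ≠ 0 := hne u List.mem_cons_self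
    have ih' := ih hne' fun x hx y hy => hun x (List.mem_cons_of_mem _ hx) y
      (List.mem_cons_of_mem _ hy)
    have e1 : ((us.map fun x => q * x).map (h (q * u))).prod =
        h q u ^ us.length * h q us.prod := by
      rw [List.map_map, ← Pool.Agent.N424.M4.h_prod hs hq us hne']
      have e2 : us.map (h (q * u) ∘ fun x => q * x) = us.map fun v => h q u * h q v := by
        refine List.map_congr_left fun v hv => ?_
        exact h_scaled hs hq hqq hu (hne' v hv) (hun u List.mem_cons_self v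
          (List.mem_cons_of_mem _ hv))
      rw [e2, List.prod_map_mul, List.map_const', List.prod_replicate]
    rw [List.map_cons, hasse, e1, List.prod_cons, hs.mul _ _ _ hq hu (prod_ne hne'),
      List.length_cons]
    calc h q u ^ us.length * h q us.prod * hasse h (us.map fun x => q * x) *
          (h q u * h q us.prod) = h q u ^ us.length * h q u * h q us.prod *
            (hasse h (us.map fun x => q * x) * h q us.prod) := by ring
      _ = _ := by rw [ih']; ring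

theorem hasse_main (hs : IsSymbol h) {a q : F} (ha : a ≠ 0) (hq : q ≠ 0) (hqq : h q q = 1)
    (us : List F) (hne : ∀ u ∈ us, u ≠ 0) (hun : ∀ u ∈ us, ∀ v ∈ us, h u v = 1)
    (h0 : ∀ u ∈ us, h a u = 1) (hev : Even us.length) :
    hasse h (a :: us.map fun x => q * x) = h q us.prod := by
  have h1 := hasse_scaled hs hq hqq us hne hun
  have e1 : ((us.map fun x => q * x).map (h a)).prod = 1 := by
    rw [List.map_map]
    have e2 : us.map (h a ∘ fun x => q * x) = us.map fun _ => h a q := by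
      refine List.map_congr_left fun v hv => ?_
      show h a (q * v) = h a q
      rw [hs.mul _ _ _ ha hq (hne v hv), h0 v hv, mul_one]
    rw [e2, List.map_const', List.prod_replicate]
    rcases hs.pm a q with h2 | h2 <;> rw [h2]
    · exact one_pow _
    · exact hev.neg_one_pow
  rw [hasse, e1, one_mul]
  rcases hs.pm q us.prod with h2 | h2
  · rw [h2, mul_one, one_pow] at h1
    rw [h1, h2]
  · rw [h2, hev.neg_one_pow] at h1
    rw [h2]
    linarith

end sym

section padic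

variable {p : ℕ} [hp : Fact p.Prime]

theorem unit_iff (u : ℤ_[p]) : IsUnit u ↔ PadicInt.toZMod u ≠ 0 := by
  rw [Ne, ← RingHom.mem_ker, PadicInt.ker_toZMod, IsLocalRing.mem_maximalIdeal, mem_nonunits_iff,
    not_not]

/-- A unit is an integer up to squares. -/
theorem unit_rep (hp2 : p ≠ 2) {u : ℤ_[p]} (hu : IsUnit u) : ∃ (m : ℤ) (c : ℚ_[p]),
    ¬ (p : ℤ) ∣ m ∧ (m : ZMod p) = PadicInt.toZMod u ∧ c ≠ 0 ∧ (u : ℚ_[p]) = (m : ℚ_[p]) * c ^ 2 := by
  obtain ⟨m, hm⟩ := ZMod.intCast_surjective (PadicInt.toZMod u)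
  have hu0 := (unit_iff u).1 hu
  have hm0 : ¬ (p : ℤ) ∣ m := by
    rwa [← hm, Ne, ZMod.intCast_zmod_eq_zero_iff_dvd] at hu0
  have h1 : IsSquare ((m : ℤ_[p]) * u) := by
    refine sq_of_residue hp2 _ (PadicInt.toZMod u) hu0 ?_
    rw [map_mul, toZMod_int, hm, sq]
  obtain ⟨r, hr⟩ := h1
  have hm1 : (m : ℚ_[p]) ≠ 0 := by
    rw [Int.cast_ne_zero]
    rintro rfl
    exact hm0 (dvd_zero _)
  have hu1 : (u : ℚ_[p]) ≠ 0 := by
    rw [Ne, PadicInt.coe_eq_zero]
    exact hu.ne_zero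
  have hr' : (m : ℚ_[p]) * u = (r : ℚ_[p]) * r := by
    have := congrArg (fun x : ℤ_[p] => (x : ℚ_[p])) hr
    push_cast at this
    exact this
  refine ⟨m, (r : ℚ_[p]) / m, hm0, hm, ?_, ?_⟩
  · refine div_ne_zero ?_ hm1
    intro h0
    rw [h0, mul_zero] at hr'
    exact mul_ne_zero hm1 hu1 hr'
  · rw [div_pow, sq (r : ℚ_[p]), ← hr']
    field_simp

theorem hil_units (hp2 : p ≠ 2) {u v : ℤ_[p]} (hu : IsUnit u) (hv : IsUnit v) :
    hil ℚ_[p] (u : ℚ_[p]) (v : ℚ_[p]) = 1 := by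
  obtain ⟨m, c, hm, -, hc, e1⟩ := unit_rep hp2 hu
  obtain ⟨n, d, hn, -, hd, e2⟩ := unit_rep hp2 hv
  rw [hil_eq_one, e1, e2, spl_sq hc, spl_sq' hd]
  exact Pool.Agent.W335.BMX.odd2 p hp2 m n hm hn

theorem hil_p (hp2 : p ≠ 2) {u : ℤ_[p]} (hu : IsUnit u) :
    hil ℚ_[p] (p : ℚ_[p]) (u : ℚ_[p]) = if IsSquare (PadicInt.toZMod u) then 1 else -1 := by
  classical
  obtain ⟨m, c, hm, hmu, hc, e1⟩ := unit_rep hp2 hu
  have hm0 : (m : ZMod p) ≠ 0 := by rwa [Ne, ZMod.intCast_zmod_eq_zero_iff_dvd]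
  have h1 : Splits (p : ℚ_[p]) (u : ℚ_[p]) ↔ IsSquare (PadicInt.toZMod u) := by
    rw [e1, spl_sq' hc, ← hmu, ← legendreSym.eq_one_iff p hm0,
      ← Pool.Agent.W335.BMX.odd3 p hp2 1 m (fun h => by
        have := Int.isUnit_iff.1 (isUnit_of_dvd_one h)
        have h2 := hp.out.two_le
        omega) hm]
    simp
  unfold hil
  by_cases h2 : IsSquare (PadicInt.toZMod u)
  · rw [if_pos (h1.2 h2), if_pos h2]
  · rw [if_neg (fun h3 => h2 (h1.1 h3)), if_neg h2]

theorem hil_pp (hp4 : p % 4 = 1) : hil ℚ_[p] (p : ℚ_[p]) (p : ℚ_[p]) = 1 := by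
  have hp2 : p ≠ 2 := by rintro rfl; norm_num at hp4
  have h1 : IsSquare (-1 : ZMod p) := ZMod.exists_sq_eq_neg_one_iff.2 (by omega)
  obtain ⟨r, hr⟩ := h1
  have h2 : IsSquare (-1 : ℤ_[p]) := by
    refine sq_of_residue hp2 _ r ?_ ?_
    · rintro rfl
      rw [mul_zero] at hr
      exact neg_ne_zero.2 one_ne_zero hr
    · rw [map_neg, map_one, hr, sq]
  obtain ⟨i, hi⟩ := isSquare_coe h2
  rw [hil_eq_one]
  refine ⟨1, i, 0, Or.inl one_ne_zero, ?_⟩
  push_cast at hi
  have h3 : i ^ 2 = -1 := by rw [sq]; exact hi.symm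
  rw [h3]
  ring

theorem hasse_sg (hp2 : p ≠ 2) (g : ℕ) :
    hasse (hil ℚ_[p]) (List.ofFn (Pool.Agent.N783.PQ.sg g : Fin (2 * g + 1) → ℚ_[p])) = 1 := by
  have h1 : ∀ x ∈ List.ofFn (Pool.Agent.N783.PQ.sg g : Fin (2 * g + 1) → ℚ_[p]),
      ∃ u : ℤ_[p], IsUnit u ∧ x = (u : ℚ_[p]) := by
    intro x hx
    rw [List.mem_ofFn] at hx
    obtain ⟨i, rfl⟩ := hx
    unfold Pool.Agent.N783.PQ.sg
    split_ifs with h
    · exact ⟨(-1) ^ (i : ℕ), isUnit_one.neg.pow _, by push_cast; rfl⟩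
    · exact ⟨1, isUnit_one, by push_cast; rfl⟩
  refine hasse_units _ fun x hx y hy => ?_
  obtain ⟨u, hu, rfl⟩ := h1 x hx
  obtain ⟨v, hv, rfl⟩ := h1 y hy
  exact hil_units hp2 hu hv

end padic

end Pool.Agent.N507.PQ
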